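import Pool.Agent.Lib.MP_ff3fe0_an.Cap

/-!
# Spherical averages of sums of bumps centred on a line
-/

namespace Pool.Agent.Lib.MP_ff3fe0_an

open MeasureTheory Metric Set
open scoped ENNReal NNReal ContDiff Pointwise

theorem mem_cap_of_dist_lt {d : ℕ} (v : E d) (y : sphere (0 : E d) 1) {t r τ : ℝ} (hr : 0 < r)
    (ht : 0 < t) (hD : r < ‖v‖) (hτ : r ≤ τ * (‖v‖ - r)) (h : ‖v - t • (y : E d)‖ < r) :
    y ∈ cap (‖v‖⁻¹ • v) τ := by
  have hy : ‖(y : E d)‖ = 1 := by simp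
  set a : ℝ := inner ℝ v (y : E d) with ha
  set D : ℝ := ‖v‖ with hDdef
  have hD0 : 0 < D := hr.trans hD
  have hexp : ‖v - t • (y : E d)‖ ^ 2 = D ^ 2 - 2 * t * a + t ^ 2 := by
    rw [norm_sub_sq_real, inner_smul_right, norm_smul, hy, mul_one, Real.norm_eq_abs, sq_abs]
    ring
  have h2 : D ^ 2 - 2 * t * a + t ^ 2 < r ^ 2 := by
    rw [← hexp]
    exact pow_lt_pow_left₀ h (norm_nonneg _) (by norm_num)
  have ha0 : 0 < a := by
    by_contra hneg
    push Not at hneg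
    nlinarith [mul_nonneg ht.le (neg_nonneg.mpr hneg)]
  have ha2 : D ^ 2 - r ^ 2 < a ^ 2 := by nlinarith [sq_nonneg (t - a)]
  refine ⟨?_, ?_⟩
  · rw [real_inner_smul_left]
    positivity
  · rw [real_inner_smul_left, ← ha, mul_pow, inv_pow, ← mul_assoc, mul_comm (1 + τ ^ 2), mul_assoc,
      ← div_eq_inv_mul, le_div_iff₀ (by positivity), one_mul]
    have h3 : r ^ 2 ≤ τ ^ 2 * (D ^ 2 - r ^ 2) := by
      calc r ^ 2 ≤ (τ * (D - r)) ^ 2 := by gcongr
        _ = τ ^ 2 * (D - r) ^ 2 := by ring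
        _ ≤ τ ^ 2 * (D ^ 2 - r ^ 2) := by
          gcongr
          nlinarith
    nlinarith [sq_nonneg τ]

theorem dist_le_of_mem_cap {d : ℕ} (w : E d) (hw : ‖w‖ = 1) (y : sphere (0 : E d) 1) {τ : ℝ}
    (hτ : 0 ≤ τ) (h : y ∈ cap w τ) : ‖w - (y : E d)‖ ≤ τ := by
  have hy : ‖(y : E d)‖ = 1 := by simp
  obtain ⟨h1, h2⟩ := h
  set c : ℝ := inner ℝ w (y : E d) with hc
  have hexp : ‖w - (y : E d)‖ ^ 2 = 2 - 2 * c := by
    rw [norm_sub_sq_real, hw, hy]
    ring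
  have hc1 : c ≤ 1 := by
    have := real_inner_le_norm w (y : E d)
    rwa [hw, hy, one_mul] at this
  have h3 : 2 - 2 * c ≤ τ ^ 2 := by
    by_contra hcon
    push Not at hcon
    have h4 : (1 + τ ^ 2) * c ^ 2 < (3 - 2 * c) * c ^ 2 := by
      have : 0 < c ^ 2 := by positivity
      nlinarith
    nlinarith [mul_nonneg (sq_nonneg (1 - c)) (by linarith : (0 : ℝ) ≤ 1 + 2 * c)]
  rw [← hexp] at h3
  exact (sq_le_sq₀ (norm_nonneg _) hτ).mp h3

theorem norm_sub_le_of_mem_cap {d : ℕ} (v : E d) (hv : v ≠ 0) (y : sphere (0 : E d) 1) {t τ : ℝ}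
    (ht : 0 < t) (hτ : 0 ≤ τ) (h : y ∈ cap (‖v‖⁻¹ • v) τ) :
    ‖v - t • (y : E d)‖ ≤ |‖v‖ - t| + t * τ := by
  have hv0 : 0 < ‖v‖ := norm_pos_iff.mpr hv
  have hw : ‖(‖v‖⁻¹ • v : E d)‖ = 1 := by
    rw [norm_smul, norm_inv, norm_norm, inv_mul_cancel₀ hv0.ne']
  have h1 := dist_le_of_mem_cap _ hw y hτ h
  set w : E d := ‖v‖⁻¹ • v with hwdef
  have hvw : v = ‖v‖ • w := by
    rw [hwdef, smul_smul, mul_inv_cancel₀ hv0.ne', one_smul]
  have h2 : v - t • (y : E d) = (‖v‖ - t) • w + t • (w - (y : E d)) := by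
    rw [smul_sub, sub_smul, ← hvw]
    abel
  rw [h2]
  refine (norm_add_le _ _).trans ?_
  rw [norm_smul _ w, norm_smul t, hw, mul_one, Real.norm_eq_abs, Real.norm_eq_abs, abs_of_pos ht]
  gcongr

/-- The sum of the rescaled bumps `φ ((z - c e₀) / r)` over the centres `c ∈ K`. -/
noncomputable def bumpSum {d : ℕ} (hd : 0 < d) (φ : E d → ℝ) (r : ℝ) (K : Finset ℝ) (z : E d) : ℝ :=
  ∑ c ∈ K, φ (r⁻¹ • (z - c • e0 hd))

theorem norm_inv_smul {d : ℕ} {r : ℝ} (hr : 0 < r) (z : E d) : ‖r⁻¹ • z‖ = ‖z‖ / r := by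
  rw [norm_smul, norm_inv, Real.norm_eq_abs, abs_of_pos hr, div_eq_inv_mul]

theorem sphMax_le {d : ℕ} (hd : 0 < d) (φ : E d → ℝ) (hφ0 : ∀ z, 0 ≤ φ z) (hφ1 : ∀ z, φ z ≤ 1)
    (hφ : ∀ z, 1 ≤ ‖z‖ → φ z = 0) {r τ : ℝ} (hr : 0 < r) (K : Finset ℝ) (x : E d)
    (hsep : ∀ c ∈ K, ∀ c' ∈ K, c ≠ c' → 2 * r ≤ |‖x - c • e0 hd‖ - ‖x - c' • e0 hd‖|)
    (hD : ∀ c ∈ K, r < ‖x - c • e0 hd‖ ∧ r ≤ τ * (‖x - c • e0 hd‖ - r)) :
    sphMax (bumpSum hd φ r K) x ≤ ENNReal.ofReal (kap d hd τ) := by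
  refine iSup_le fun t => iSup_le fun ht => ?_
  have hzero : ∀ c : ℝ, r ≤ |‖x - c • e0 hd‖ - t| → ∀ y : sphere (0 : E d) 1,
      φ (r⁻¹ • (x - t • (y : E d) - c • e0 hd)) = 0 := by
    intro c hc y
    apply hφ
    rw [norm_inv_smul hr, le_div_iff₀ hr, one_mul]
    have hy : ‖(y : E d)‖ = 1 := by simp
    have h1 : |‖x - c • e0 hd‖ - ‖t • (y : E d)‖| ≤ ‖x - c • e0 hd - t • (y : E d)‖ :=
      abs_norm_sub_norm_le _ _
    rw [norm_smul, hy, mul_one, Real.norm_eq_abs, abs_of_pos ht] at h1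
    have h2 : x - t • (y : E d) - c • e0 hd = x - c • e0 hd - t • (y : E d) := by abel
    rw [h2]
    exact hc.trans h1
  by_cases hex : ∃ c ∈ K, |‖x - c • e0 hd‖ - t| < r
  · obtain ⟨c, hcK, hct⟩ := hex
    obtain ⟨hD1, hD2⟩ := hD c hcK
    have hv0 : 0 < ‖x - c • e0 hd‖ := hr.trans hD1
    have hw : ‖(‖x - c • e0 hd‖⁻¹ • (x - c • e0 hd) : E d)‖ = 1 := by
      rw [norm_smul, norm_inv, norm_norm, inv_mul_cancel₀ hv0.ne']
    rw [← sigma_cap_eq hd _ hw τ, ← lintegral_indicator_one (measurableSet_cap _ τ)]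
    apply lintegral_mono
    intro y
    have hsum : bumpSum hd φ r K (x - t • (y : E d))
        = φ (r⁻¹ • (x - t • (y : E d) - c • e0 hd)) := by
      rw [bumpSum]
      apply Finset.sum_eq_single_of_mem c hcK
      intro c' hc' hne
      apply hzero
      by_contra hlt
      push Not at hlt
      have h1 := hsep c hcK c' hc' hne.symm
      have h2 : |‖x - c • e0 hd‖ - ‖x - c' • e0 hd‖|
          ≤ |‖x - c • e0 hd‖ - t| + |‖x - c' • e0 hd‖ - t| := by
        have : ‖x - c • e0 hd‖ - ‖x - c' • e0 hd‖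
          = (‖x - c • e0 hd‖ - t) - (‖x - c' • e0 hd‖ - t) := by ring
        rw [this]
        exact abs_sub _ _
      linarith
    show ‖bumpSum hd φ r K (x - t • (y : E d))‖ₑ ≤ _
    rw [hsum]
    by_cases hy : y ∈ cap (‖x - c • e0 hd‖⁻¹ • (x - c • e0 hd)) τ
    · rw [Set.indicator_of_mem hy, Pi.one_apply, Real.enorm_eq_ofReal (hφ0 _)]
      rw [← ENNReal.ofReal_one]
      exact ENNReal.ofReal_le_ofReal (hφ1 _)
    · rw [Set.indicator_of_notMem hy]
      have : φ (r⁻¹ • (x - t • (y : E d) - c • e0 hd)) = 0 := by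
        apply hφ
        rw [norm_inv_smul hr, le_div_iff₀ hr, one_mul]
        by_contra hlt
        push Not at hlt
        apply hy
        apply mem_cap_of_dist_lt _ _ hr ht hD1 hD2
        have h2 : x - c • e0 hd - t • (y : E d) = x - t • (y : E d) - c • e0 hd := by abel
        rw [h2]
        exact hlt
      rw [this]
      simp
  · push Not at hex
    have : ∀ y : sphere (0 : E d) 1, bumpSum hd φ r K (x - t • (y : E d)) = 0 := by
      intro y
      rw [bumpSum]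
      apply Finset.sum_eq_zero
      intro c hc
      exact hzero c (hex c hc) y
    simp [this]

theorem le_sphMax {d : ℕ} (hd : 0 < d) (φ : E d → ℝ) (hφ0 : ∀ z, 0 ≤ φ z) {η : ℝ}
    (hφ : ∀ z, ‖z‖ ≤ 1 - η → φ z = 1) {r τ : ℝ} (hr : 0 < r) (K : Finset ℝ) (x : E d)
    (c c' : ℝ) (hc : c ∈ K) (hc' : c' ∈ K) (hne : c ≠ c')
    (hv : x - c • e0 hd ≠ 0) (hv' : x - c' • e0 hd ≠ 0)
    (hclose : |‖x - c • e0 hd‖ - ‖x - c' • e0 hd‖| ≤ η * r)
    (hτ : 0 ≤ τ) (hη : 0 ≤ η) (htτ : ‖x - c • e0 hd‖ * τ ≤ (1 - 2 * η) * r) :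
    2 * ENNReal.ofReal (kap d hd τ) ≤ sphMax (bumpSum hd φ r K) x := by
  set t : ℝ := ‖x - c • e0 hd‖ with ht
  have ht0 : 0 < t := norm_pos_iff.mpr hv
  refine le_trans ?_ (le_iSup₂_of_le t ht0 le_rfl)
  have hw : ‖(‖x - c • e0 hd‖⁻¹ • (x - c • e0 hd) : E d)‖ = 1 := by
    rw [norm_smul, norm_inv, norm_norm, inv_mul_cancel₀ (norm_pos_iff.mpr hv).ne']
  have hw' : ‖(‖x - c' • e0 hd‖⁻¹ • (x - c' • e0 hd) : E d)‖ = 1 := by
    rw [norm_smul, norm_inv, norm_norm, inv_mul_cancel₀ (norm_pos_iff.mpr hv').ne']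
  have hone : ∀ b : ℝ, x - b • e0 hd ≠ 0 → |t - ‖x - b • e0 hd‖| ≤ η * r →
      ∀ y : sphere (0 : E d) 1, y ∈ cap (‖x - b • e0 hd‖⁻¹ • (x - b • e0 hd)) τ →
      φ (r⁻¹ • (x - t • (y : E d) - b • e0 hd)) = 1 := by
    intro b hb hb2 y hy
    apply hφ
    rw [norm_inv_smul hr, div_le_iff₀ hr]
    have h1 := norm_sub_le_of_mem_cap _ hb y ht0 hτ hy
    have h2 : x - b • e0 hd - t • (y : E d) = x - t • (y : E d) - b • e0 hd := by abel
    rw [h2, abs_sub_comm] at h1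
    linarith
  calc 2 * ENNReal.ofReal (kap d hd τ)
      = sigma d (cap (‖x - c • e0 hd‖⁻¹ • (x - c • e0 hd)) τ)
        + sigma d (cap (‖x - c' • e0 hd‖⁻¹ • (x - c' • e0 hd)) τ) := by
        rw [sigma_cap_eq hd _ hw τ, sigma_cap_eq hd _ hw' τ, two_mul]
    _ = ∫⁻ y, ((cap (‖x - c • e0 hd‖⁻¹ • (x - c • e0 hd)) τ).indicator 1 y
        + (cap (‖x - c' • e0 hd‖⁻¹ • (x - c' • e0 hd)) τ).indicator 1 y) ∂(sigma d) := by
        rw [lintegral_add_left, lintegral_indicator_one (measurableSet_cap _ τ),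
          lintegral_indicator_one (measurableSet_cap _ τ)]
        exact measurable_one.indicator (measurableSet_cap _ τ)
    _ ≤ ∫⁻ y, ‖bumpSum hd φ r K (x - t • (y : E d))‖ₑ ∂(sigma d) := by
        apply lintegral_mono
        intro y
        have hsum : φ (r⁻¹ • (x - t • (y : E d) - c • e0 hd))
            + φ (r⁻¹ • (x - t • (y : E d) - c' • e0 hd))
            ≤ bumpSum hd φ r K (x - t • (y : E d)) := by
          rw [bumpSum, ← Finset.sum_pair (f := fun b => φ (r⁻¹ • (x - t • (y : E d) - b • e0 hd)))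
            hne]
          apply Finset.sum_le_sum_of_subset_of_nonneg
          · intro b hb
            simp only [Finset.mem_insert, Finset.mem_singleton] at hb
            rcases hb with rfl | rfl
            · exact hc
            · exact hc'
          · intro b _ _
            exact hφ0 _
        have hnn : 0 ≤ bumpSum hd φ r K (x - t • (y : E d)) := by
          rw [bumpSum]
          exact Finset.sum_nonneg fun b _ => hφ0 _
        show _ ≤ ‖bumpSum hd φ r K (x - t • (y : E d))‖ₑ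
        rw [Real.enorm_eq_ofReal hnn]
        refine le_trans ?_ (ENNReal.ofReal_le_ofReal hsum)
        rw [ENNReal.ofReal_add (hφ0 _) (hφ0 _)]
        apply add_le_add
        · by_cases hy : y ∈ cap (‖x - c • e0 hd‖⁻¹ • (x - c • e0 hd)) τ
          · rw [Set.indicator_of_mem hy, hone c hv (by simp [ht]; positivity) y hy]
            simp
          · rw [Set.indicator_of_notMem hy]
            exact zero_le
        · by_cases hy : y ∈ cap (‖x - c' • e0 hd‖⁻¹ • (x - c' • e0 hd)) τ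
          · rw [Set.indicator_of_mem hy, hone c' hv' hclose y hy]
            simp
          · rw [Set.indicator_of_notMem hy]
            exact zero_le

theorem sphMax_ne_top {d : ℕ} (hd : 0 < d) (f : E d → ℝ) (C : ℝ) (hf : ∀ z, |f z| ≤ C) (x : E d) :
    sphMax f x ≠ ⊤ := by
  have h : sphMax f x ≤ ENNReal.ofReal C := by
    refine iSup_le fun t => iSup_le fun _ => ?_
    calc ∫⁻ y, ‖f (x - t • (y : E d))‖ₑ ∂(sigma d) ≤ ∫⁻ _, ENNReal.ofReal C ∂(sigma d) := by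
          apply lintegral_mono
          intro y
          show ‖f (x - t • (y : E d))‖ₑ ≤ ENNReal.ofReal C
          rw [← ofReal_norm, Real.norm_eq_abs]
          exact ENNReal.ofReal_le_ofReal (hf _)
      _ = ENNReal.ofReal C := by
          rw [lintegral_const, sigma_univ hd, mul_one]
  exact ne_top_of_le_ne_top ENNReal.ofReal_ne_top h

end Pool.Agent.Lib.MP_ff3fe0_an
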