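import Pool.Agent.Lib.MP_ff3fe0_an.Defs

/-!
# The measure of spherical caps
-/

namespace Pool.Agent.Lib.MP_ff3fe0_an

open MeasureTheory Metric Set
open scoped ENNReal NNReal ContDiff Pointwise

/-- A spherical cap around the direction `w`. -/
def cap {d : ℕ} (w : E d) (τ : ℝ) : Set (sphere (0 : E d) 1) :=
  {y | 0 < inner ℝ w (y : E d) ∧ 1 ≤ (1 + τ ^ 2) * (inner ℝ w (y : E d)) ^ 2}

/-- The truncated cone over a spherical cap. -/
def cone {d : ℕ} (w : E d) (τ : ℝ) : Set (E d) :=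
  {z | ‖z‖ < 1 ∧ 0 < inner ℝ w z ∧ ‖z‖ ^ 2 ≤ (1 + τ ^ 2) * (inner ℝ w z) ^ 2}

theorem Ioo_smul_cap {d : ℕ} (w : E d) (τ : ℝ) :
    (Ioo (0 : ℝ) 1) • ((↑) '' (cap w τ) : Set (E d)) = cone w τ := by
  ext z
  simp only [Set.mem_smul, Set.mem_image, cap, cone, Set.mem_ofPred_eq, Set.mem_Ioo]
  constructor
  · rintro ⟨s, ⟨hs0, hs1⟩, -, ⟨y, ⟨hy1, hy2⟩, rfl⟩, rfl⟩
    have hy : ‖(y : E d)‖ = 1 := by simp
    rw [norm_smul, hy, mul_one, Real.norm_eq_abs, abs_of_pos hs0, inner_smul_right]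
    refine ⟨hs1, by positivity, ?_⟩
    have : 0 < s ^ 2 := by positivity
    nlinarith
  · rintro ⟨h1, h2, h3⟩
    have hz : z ≠ 0 := by
      rintro rfl
      simp at h2
    have hz' : 0 < ‖z‖ := norm_pos_iff.mpr hz
    have hunit : ‖(‖z‖⁻¹ • z : E d)‖ = 1 := by
      rw [norm_smul, norm_inv, norm_norm, inv_mul_cancel₀ hz'.ne']
    refine ⟨‖z‖, ⟨hz', h1⟩, ‖z‖⁻¹ • z, ⟨⟨‖z‖⁻¹ • z, by simpa using hunit⟩, ⟨?_, ?_⟩, rfl⟩, ?_⟩
    · rw [inner_smul_right]
      positivity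
    · rw [inner_smul_right]
      have : (1 + τ ^ 2) * (‖z‖⁻¹ * inner ℝ w z) ^ 2
          = ((1 + τ ^ 2) * (inner ℝ w z) ^ 2) / ‖z‖ ^ 2 := by
        field_simp
      rw [this, le_div_iff₀ (by positivity)]
      linarith
    · rw [smul_smul, mul_inv_cancel₀ hz'.ne', one_smul]

theorem measurableSet_cap {d : ℕ} (w : E d) (τ : ℝ) : MeasurableSet (cap w τ) := by
  have h1 : Measurable (fun y : sphere (0 : E d) 1 => (inner ℝ w (y : E d) : ℝ)) := by
    have : Continuous (fun y : sphere (0 : E d) 1 => (inner ℝ w (y : E d) : ℝ)) := by fun_prop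
    exact this.measurable
  exact (measurableSet_lt measurable_const h1).inter
    (measurableSet_le measurable_const ((h1.pow_const 2).const_mul (1 + τ ^ 2)))

theorem measurableSet_cone {d : ℕ} (w : E d) (τ : ℝ) : MeasurableSet (cone w τ) := by
  have h1 : Measurable (fun y : E d => (inner ℝ w (y : E d) : ℝ)) := by
    have : Continuous (fun y : E d => (inner ℝ w (y : E d) : ℝ)) := by fun_prop
    exact this.measurable
  exact (measurableSet_lt measurable_norm measurable_const).inter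
    ((measurableSet_lt measurable_const h1).inter
    (measurableSet_le (measurable_norm.pow_const 2) ((h1.pow_const 2).const_mul (1 + τ ^ 2))))

theorem sigma_cap {d : ℕ} (hd : 0 < d) (w : E d) (τ : ℝ) :
    sigma d (cap w τ) = volume (cone w τ) / volume (ball (0 : E d) 1) := by
  have : Nontrivial (E d) := by
    have : Nonempty (Fin d) := ⟨⟨0, hd⟩⟩
    infer_instance
  have hd' : (d : ℝ≥0∞) ≠ 0 := by
    simp
    omega
  have hd'' : (d : ℝ≥0∞) ≠ ⊤ := by simp
  rw [sigma, Measure.smul_apply, Measure.toSphere_apply' _ (measurableSet_cap w τ), Ioo_smul_cap,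
    Measure.toSphere_apply_univ, smul_eq_mul, finrank_euclideanSpace_fin]
  have hb : volume (ball (0 : E d) 1) ≠ 0 := (measure_ball_pos _ _ one_pos).ne'
  have hb' : volume (ball (0 : E d) 1) ≠ ⊤ := measure_ball_lt_top.ne
  rw [ENNReal.mul_inv (Or.inl hd') (Or.inl hd''), ENNReal.div_eq_inv_mul]
  rw [mul_assoc, ← mul_assoc (volume (ball (0 : E d) 1))⁻¹, mul_comm (volume (ball (0 : E d) 1))⁻¹,
    mul_assoc, ← mul_assoc, ENNReal.inv_mul_cancel hd' hd'', one_mul]

theorem sigma_univ {d : ℕ} (hd : 0 < d) : sigma d univ = 1 := by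
  have : Nontrivial (E d) := by
    have : Nonempty (Fin d) := ⟨⟨0, hd⟩⟩
    infer_instance
  rw [sigma, Measure.smul_apply, smul_eq_mul]
  apply ENNReal.inv_mul_cancel
  · intro h
    exact (Measure.toSphere_ne_zero (volume : Measure (E d))) (Measure.measure_univ_eq_zero.mp h)
  · exact measure_ne_top _ _

theorem volume_cone_rot {d : ℕ} (w w' : E d) (h : ‖w‖ = ‖w'‖) (τ : ℝ) :
    volume (cone w τ) = volume (cone w' τ) := by
  set T := (ℝ ∙ (w - w'))ᗮ.reflection with hT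
  have hTw : T w = w' := Submodule.reflection_sub h
  have hmp : MeasurePreserving T := T.measurePreserving
  have hpre : T ⁻¹' (cone w' τ) = cone w τ := by
    ext z
    simp only [cone, Set.mem_preimage, Set.mem_ofPred_eq]
    rw [← hTw]
    rw [LinearIsometryEquiv.norm_map, LinearIsometryEquiv.inner_map_map]
  rw [← hpre]
  exact hmp.measure_preimage (measurableSet_cone w' τ).nullMeasurableSet

/-- The standard first basis vector. -/
noncomputable def e0 {d : ℕ} (hd : 0 < d) : E d := EuclideanSpace.single ⟨0, hd⟩ 1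

theorem norm_e0 {d : ℕ} (hd : 0 < d) : ‖e0 hd‖ = 1 := by
  simp [e0]

theorem inner_e0 {d : ℕ} (hd : 0 < d) (z : E d) : inner ℝ (e0 hd) z = z ⟨0, hd⟩ := by
  rw [e0, EuclideanSpace.inner_single_left]
  simp

/-- The weights of the diagonal map fixing the first coordinate and multiplying the others
by `m`. -/
noncomputable def wt {d : ℕ} (hd : 0 < d) (m : ℝ) : Fin d → ℝ :=
  fun i => if i = ⟨0, hd⟩ then 1 else m

/-- The diagonal map fixing the first coordinate and multiplying the others by `m`. -/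
noncomputable def diagMap {d : ℕ} (hd : 0 < d) (m : ℝ) : E d →ₗ[ℝ] E d :=
  Matrix.toEuclideanLin (Matrix.diagonal (wt hd m))

theorem diagMap_apply {d : ℕ} (hd : 0 < d) (m : ℝ) (z : E d) (i : Fin d) :
    diagMap hd m z i = wt hd m i * z i := by
  simp [diagMap, Matrix.toLpLin_apply, Matrix.mulVec_diagonal]

theorem det_diagMap {d : ℕ} (hd : 0 < d) (m : ℝ) :
    LinearMap.det (diagMap hd m) = m ^ (d - 1) := by
  rw [diagMap, Matrix.toEuclideanLin, Matrix.toLpLin_eq_toLin, LinearMap.det_toLin,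
    Matrix.det_diagonal]
  rw [← Finset.prod_erase_mul _ _ (Finset.mem_univ (⟨0, hd⟩ : Fin d))]
  rw [Finset.prod_congr rfl (g := fun _ => m)]
  · simp [wt]
  · intro i hi
    simp only [wt]
    rw [if_neg (Finset.ne_of_mem_erase hi)]

theorem norm_sq_diagMap {d : ℕ} (hd : 0 < d) (m : ℝ) (z : E d) :
    ‖diagMap hd m z‖ ^ 2 = (z ⟨0, hd⟩) ^ 2 + m ^ 2 * (‖z‖ ^ 2 - (z ⟨0, hd⟩) ^ 2) := by
  rw [EuclideanSpace.norm_sq_eq, EuclideanSpace.norm_sq_eq]
  rw [← Finset.sum_erase_add _ _ (Finset.mem_univ (⟨0, hd⟩ : Fin d))]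
  rw [← Finset.sum_erase_add (s := Finset.univ) (f := fun i => ‖z i‖ ^ 2) (a := (⟨0, hd⟩ : Fin d))
    (Finset.mem_univ _)]
  rw [Finset.sum_congr rfl (g := fun i => m ^ 2 * ‖z i‖ ^ 2)]
  · rw [← Finset.mul_sum, diagMap_apply]
    simp [wt]
    ring
  · intro i hi
    rw [diagMap_apply]
    simp only [wt]
    rw [if_neg (Finset.ne_of_mem_erase hi), norm_mul, mul_pow]
    simp

/-- Growth of caps: `vol (cone τ') ≤ (τ' / τ) ^ (d - 1) * vol (cone τ)` for `0 < τ ≤ τ'`. -/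
theorem volume_cone_growth {d : ℕ} (hd : 0 < d) (τ τ' : ℝ) (hτ : 0 < τ) (hττ' : τ ≤ τ') :
    volume (cone (e0 hd) τ') ≤ ENNReal.ofReal ((τ' / τ) ^ (d - 1)) * volume (cone (e0 hd) τ) := by
  have hτ' : 0 < τ' := lt_of_lt_of_le hτ hττ'
  set m : ℝ := τ / τ' with hm
  have hm0 : 0 < m := by positivity
  have hm1 : m ≤ 1 := by
    rw [hm, div_le_one hτ']
    exact hττ'
  have hdet : LinearMap.det (diagMap hd m) ≠ 0 := by
    rw [det_diagMap]
    positivity
  have hsub : cone (e0 hd) τ' ⊆ diagMap hd m ⁻¹' (cone (e0 hd) τ) := by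
    rintro z ⟨h1, h2, h3⟩
    rw [inner_e0] at h2 h3
    have hz0 : diagMap hd m z ⟨0, hd⟩ = z ⟨0, hd⟩ := by
      rw [diagMap_apply]
      simp [wt]
    have hle : (z ⟨0, hd⟩) ^ 2 ≤ ‖z‖ ^ 2 := by
      have := abs_real_inner_le_norm (e0 hd) z
      rw [norm_e0, one_mul, inner_e0] at this
      rw [← sq_abs (z ⟨0, hd⟩)]
      gcongr
    have hmm : m ^ 2 ≤ 1 := by nlinarith
    have hn : ‖diagMap hd m z‖ ^ 2 ≤ ‖z‖ ^ 2 := by
      rw [norm_sq_diagMap]
      nlinarith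
    refine ⟨?_, ?_, ?_⟩
    · have : ‖diagMap hd m z‖ ≤ ‖z‖ := by
        exact (sq_le_sq₀ (norm_nonneg _) (norm_nonneg _)).mp hn
      linarith
    · rw [inner_e0, hz0]
      exact h2
    · rw [inner_e0, hz0, norm_sq_diagMap]
      have h4 : m ^ 2 * (‖z‖ ^ 2 - (z ⟨0, hd⟩) ^ 2) ≤ m ^ 2 * (τ' ^ 2 * (z ⟨0, hd⟩) ^ 2) := by
        gcongr
        linarith
      have h5 : m ^ 2 * (τ' ^ 2 * (z ⟨0, hd⟩) ^ 2) = τ ^ 2 * (z ⟨0, hd⟩) ^ 2 := by
        rw [hm]
        field_simp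
      linarith
  calc volume (cone (e0 hd) τ') ≤ volume (diagMap hd m ⁻¹' (cone (e0 hd) τ)) :=
        measure_mono hsub
    _ = ENNReal.ofReal |(LinearMap.det (diagMap hd m))⁻¹| * volume (cone (e0 hd) τ) :=
        Measure.addHaar_preimage_linearMap _ hdet _
    _ = ENNReal.ofReal ((τ' / τ) ^ (d - 1)) * volume (cone (e0 hd) τ) := by
        rw [det_diagMap, ← inv_pow, hm, inv_div, abs_of_pos (by positivity)]

/-- The normalised measure of a spherical cap. -/
noncomputable def kap (d : ℕ) (hd : 0 < d) (τ : ℝ) : ℝ := (sigma d (cap (e0 hd) τ)).toReal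

theorem sigma_cap_eq {d : ℕ} (hd : 0 < d) (w : E d) (hw : ‖w‖ = 1) (τ : ℝ) :
    sigma d (cap w τ) = ENNReal.ofReal (kap d hd τ) := by
  have h1 : sigma d (cap w τ) = sigma d (cap (e0 hd) τ) := by
    rw [sigma_cap hd, sigma_cap hd, volume_cone_rot w (e0 hd) (by rw [hw, norm_e0])]
  rw [h1, kap, ENNReal.ofReal_toReal]
  refine ne_top_of_le_ne_top ?_ (measure_mono (subset_univ _))
  rw [sigma_univ hd]
  exact ENNReal.one_ne_top

theorem kap_nonneg {d : ℕ} (hd : 0 < d) (τ : ℝ) : 0 ≤ kap d hd τ := ENNReal.toReal_nonneg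

theorem cap_mono {d : ℕ} (w : E d) {τ τ' : ℝ} (h0 : 0 ≤ τ) (h : τ ≤ τ') :
    cap w τ ⊆ cap w τ' := by
  rintro y ⟨h1, h2⟩
  refine ⟨h1, h2.trans ?_⟩
  gcongr

theorem kap_mono {d : ℕ} (hd : 0 < d) {τ τ' : ℝ} (h0 : 0 ≤ τ) (h : τ ≤ τ') :
    kap d hd τ ≤ kap d hd τ' := by
  apply ENNReal.toReal_mono
  · refine ne_top_of_le_ne_top ?_ (measure_mono (subset_univ _))
    rw [sigma_univ hd]
    exact ENNReal.one_ne_top
  · exact measure_mono (cap_mono _ h0 h)

theorem kap_growth {d : ℕ} (hd : 0 < d) {τ τ' : ℝ} (hτ : 0 < τ) (hττ' : τ ≤ τ') :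
    kap d hd τ' ≤ (τ' / τ) ^ (d - 1) * kap d hd τ := by
  have hτ' : 0 < τ' := lt_of_lt_of_le hτ hττ'
  have h := volume_cone_growth hd τ τ' hτ hττ'
  have h2 : sigma d (cap (e0 hd) τ')
      ≤ ENNReal.ofReal ((τ' / τ) ^ (d - 1)) * sigma d (cap (e0 hd) τ) := by
    rw [sigma_cap hd, sigma_cap hd, ← mul_div_assoc]
    exact ENNReal.div_le_div_right h _
  rw [sigma_cap_eq hd _ (norm_e0 hd), sigma_cap_eq hd _ (norm_e0 hd),
    ← ENNReal.ofReal_mul (by positivity)] at h2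
  exact (ENNReal.ofReal_le_ofReal_iff (mul_nonneg (by positivity) (kap_nonneg hd _))).mp h2

theorem kap_one_pos {d : ℕ} (hd : 0 < d) : 0 < kap d hd 1 := by
  rw [kap]
  apply ENNReal.toReal_pos
  · rw [sigma_cap hd]
    have hb' : volume (ball (0 : E d) 1) ≠ ⊤ := measure_ball_lt_top.ne
    apply (ENNReal.div_pos _ hb').ne'
    set U : Set (E d) := {z | ‖z‖ < 1 ∧ 0 < inner ℝ (e0 hd) z ∧
      ‖z‖ ^ 2 < (1 + 1 ^ 2) * (inner ℝ (e0 hd) z) ^ 2} with hU
    have hc : Continuous (fun z : E d => (inner ℝ (e0 hd) z : ℝ)) := by fun_prop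
    have hopen : IsOpen U := by
      apply IsOpen.inter
      · exact isOpen_lt continuous_norm continuous_const
      apply IsOpen.inter
      · exact isOpen_lt continuous_const hc
      · exact isOpen_lt (continuous_norm.pow 2) (continuous_const.mul (hc.pow 2))
    have hne : U.Nonempty := by
      refine ⟨(1 / 2 : ℝ) • e0 hd, ?_, ?_, ?_⟩
      · rw [norm_smul, norm_e0]
        norm_num
      · rw [inner_smul_right, real_inner_self_eq_norm_sq, norm_e0]
        norm_num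
      · rw [inner_smul_right, real_inner_self_eq_norm_sq, norm_smul, norm_e0]
        norm_num
    have hpos : 0 < volume U := hopen.measure_pos volume hne
    have hsub : U ⊆ cone (e0 hd) 1 := by
      rintro z ⟨h1, h2, h3⟩
      exact ⟨h1, h2, h3.le⟩
    exact (lt_of_lt_of_le hpos (measure_mono hsub)).ne'
  · refine ne_top_of_le_ne_top ?_ (measure_mono (subset_univ _))
    rw [sigma_univ hd]
    exact ENNReal.one_ne_top

theorem kap_lower {d : ℕ} (hd : 0 < d) {τ : ℝ} (hτ : 0 < τ) (h1 : τ ≤ 1) :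
    kap d hd 1 * τ ^ (d - 1) ≤ kap d hd τ := by
  have h := kap_growth hd hτ h1
  have hpos : 0 < τ ^ (d - 1) := by positivity
  calc kap d hd 1 * τ ^ (d - 1) ≤ ((1 / τ) ^ (d - 1) * kap d hd τ) * τ ^ (d - 1) := by gcongr
    _ = kap d hd τ := by
      rw [one_div, inv_pow]
      field_simp

end Pool.Agent.Lib.MP_ff3fe0_an
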