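import Pool.Agent.Lib.MP_ff3fe0_an.Bumps

/-!
# The configuration of centres
-/

namespace Pool.Agent.Lib.MP_ff3fe0_an

open MeasureTheory Metric Set
open scoped ENNReal NNReal ContDiff Pointwise

/-- The centres `i / M` and `2 + j / M ^ 2`, `0 ≤ i, j < M`, on the first coordinate axis. -/
noncomputable def centers (M : ℕ) : Finset ℝ :=
  (Finset.range M).image (fun i : ℕ => (i : ℝ) / M) ∪
    (Finset.range M).image (fun j : ℕ => 2 + (j : ℝ) / (M : ℝ) ^ 2)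

theorem card_centers (M : ℕ) : (centers M).card ≤ 2 * M := by
  refine (Finset.card_union_le _ _).trans ?_
  have h1 := Finset.card_image_le (s := Finset.range M) (f := fun i : ℕ => (i : ℝ) / M)
  have h2 := Finset.card_image_le (s := Finset.range M)
    (f := fun j : ℕ => 2 + (j : ℝ) / (M : ℝ) ^ 2)
  rw [Finset.card_range] at h1 h2
  omega

theorem mem_centers {M : ℕ} {c : ℝ} (h : c ∈ centers M) :
    (∃ i : ℕ, i < M ∧ c = (i : ℝ) / M) ∨ (∃ j : ℕ, j < M ∧ c = 2 + (j : ℝ) / (M : ℝ) ^ 2) := by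
  rw [centers, Finset.mem_union, Finset.mem_image, Finset.mem_image] at h
  rcases h with ⟨i, hi, rfl⟩ | ⟨j, hj, rfl⟩
  · exact Or.inl ⟨i, Finset.mem_range.mp hi, rfl⟩
  · exact Or.inr ⟨j, Finset.mem_range.mp hj, rfl⟩

theorem a_bounds {M : ℕ} (hM : 0 < M) {i : ℕ} (hi : i < M) :
    0 ≤ (i : ℝ) / M ∧ (i : ℝ) / M ≤ 1 - 1 / M := by
  have hM' : (0 : ℝ) < M := by exact_mod_cast hM
  refine ⟨by positivity, ?_⟩
  rw [div_le_iff₀ hM', sub_mul, one_div, inv_mul_cancel₀ hM'.ne', one_mul]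
  have : (i : ℝ) + 1 ≤ M := by exact_mod_cast hi
  linarith

theorem b_bounds {M : ℕ} (hM : 0 < M) {j : ℕ} (hj : j < M) :
    2 ≤ 2 + (j : ℝ) / (M : ℝ) ^ 2 ∧ 2 + (j : ℝ) / (M : ℝ) ^ 2 ≤ 3 := by
  have hM' : (1 : ℝ) ≤ M := by exact_mod_cast hM
  have hj' : (j : ℝ) ≤ M := by exact_mod_cast hj.le
  refine ⟨by linarith [show 0 ≤ (j : ℝ) / (M : ℝ) ^ 2 by positivity], ?_⟩
  have : (j : ℝ) / (M : ℝ) ^ 2 ≤ 1 := by
    rw [div_le_one (by positivity)]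
    nlinarith
  linarith

theorem centers_bounds {M : ℕ} (hM : 0 < M) {c : ℝ} (h : c ∈ centers M) : 0 ≤ c ∧ c ≤ 3 := by
  have hM' : (0 : ℝ) < M := by exact_mod_cast hM
  rcases mem_centers h with ⟨i, hi, rfl⟩ | ⟨j, hj, rfl⟩
  · have := a_bounds hM hi
    have h1 : (0 : ℝ) < 1 / M := by positivity
    exact ⟨this.1, by linarith [this.2]⟩
  · have := b_bounds hM hj
    exact ⟨by linarith [this.1], this.2⟩

/-- Separation of the centres. -/
theorem centers_sep {M : ℕ} (hM : 0 < M) {c c' : ℝ} (h : c ∈ centers M) (h' : c' ∈ centers M)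
    (hne : c ≠ c') : 1 / (M : ℝ) ^ 2 ≤ |c - c'| := by
  have hM' : (1 : ℝ) ≤ M := by exact_mod_cast hM
  have hM0 : (0 : ℝ) < M := by linarith
  have hMM : 1 / (M : ℝ) ^ 2 ≤ 1 := by
    rw [div_le_one (by positivity)]
    nlinarith
  have hMM' : 1 / (M : ℝ) ^ 2 ≤ 1 / M := by
    apply one_div_le_one_div_of_le hM0
    nlinarith
  have hnat : ∀ i i' : ℕ, i ≠ i' → (1 : ℝ) ≤ |(i : ℝ) - i'| := by
    intro i i' hii
    have h1 : (i : ℤ) - i' ≠ 0 := by omega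
    have h2 := Int.one_le_abs h1
    exact_mod_cast h2
  have hdiff : ∀ c1 c2 : ℝ, c1 ≤ 1 → 2 ≤ c2 → 1 / (M : ℝ) ^ 2 ≤ |c1 - c2| := by
    intro c1 c2 h1 h2
    have : 1 ≤ |c1 - c2| := by
      rw [abs_sub_comm]
      exact le_trans (by linarith) (le_abs_self _)
    linarith
  rcases mem_centers h with ⟨i, hi, rfl⟩ | ⟨j, hj, rfl⟩ <;>
  rcases mem_centers h' with ⟨i', hi', rfl⟩ | ⟨j', hj', rfl⟩
  · have hii : i ≠ i' := by
      rintro rfl
      exact hne rfl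
    have h1 : (i : ℝ) / M - (i' : ℝ) / M = ((i : ℝ) - i') / M := by ring
    rw [h1, abs_div, abs_of_pos hM0]
    refine hMM'.trans ?_
    gcongr
    exact hnat i i' hii
  · have h1 := a_bounds hM hi
    have h2 := b_bounds hM hj'
    have h3 : (0 : ℝ) < 1 / M := by positivity
    exact hdiff _ _ (by linarith [h1.2]) h2.1
  · have h1 := a_bounds hM hi'
    have h2 := b_bounds hM hj
    have h3 : (0 : ℝ) < 1 / M := by positivity
    rw [abs_sub_comm]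
    exact hdiff _ _ (by linarith [h1.2]) h2.1
  · have hjj : j ≠ j' := by
      rintro rfl
      exact hne rfl
    have h1 : 2 + (j : ℝ) / (M : ℝ) ^ 2 - (2 + (j' : ℝ) / (M : ℝ) ^ 2)
        = ((j : ℝ) - j') / (M : ℝ) ^ 2 := by ring
    rw [h1, abs_div, abs_of_pos (show (0 : ℝ) < (M : ℝ) ^ 2 by positivity)]
    gcongr
    exact hnat j j' hjj

/-- Non-resonance. -/
theorem nonres {M : ℕ} (hM : 0 < M) {σ : ℝ} (hσ0 : 0 ≤ σ) (hσ1 : σ ≤ (M : ℝ) ^ 2)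
    (hσ : ∀ q : ℕ, 1 / 4 ≤ |σ - q|) {c c' : ℝ} (h : c ∈ centers M) (h' : c' ∈ centers M)
    (hne : c ≠ c') :
    1 / (4 * (M : ℝ) ^ 2) ≤ |c - c'| * |2 * (1 + σ / (2 * (M : ℝ) ^ 2)) - c - c'| := by
  have hM' : (1 : ℝ) ≤ M := by exact_mod_cast hM
  have hM0 : (0 : ℝ) < M := by linarith
  have hnat : ∀ i i' : ℕ, i ≠ i' → (1 : ℝ) ≤ |(i : ℝ) - i'| := by
    intro i i' hii
    have h1 : (i : ℤ) - i' ≠ 0 := by omega
    have h2 := Int.one_le_abs h1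
    exact_mod_cast h2
  have hs : 2 * (1 + σ / (2 * (M : ℝ) ^ 2)) = 2 + σ / (M : ℝ) ^ 2 := by
    field_simp
  have hs0 : 0 ≤ σ / (M : ℝ) ^ 2 := by positivity
  have hs1 : σ / (M : ℝ) ^ 2 ≤ 1 := by
    rw [div_le_one (by positivity)]
    exact hσ1
  rw [hs]
  have hmix : ∀ i j : ℕ, i < M → j < M →
      1 / (4 * (M : ℝ) ^ 2) ≤ |(i : ℝ) / M - (2 + (j : ℝ) / (M : ℝ) ^ 2)|
        * |2 + σ / (M : ℝ) ^ 2 - (i : ℝ) / M - (2 + (j : ℝ) / (M : ℝ) ^ 2)| := by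
    intro i j hi hj
    have h1 := a_bounds hM hi
    have h2 := b_bounds hM hj
    have h3 : (0 : ℝ) < 1 / M := by positivity
    have h4 : 1 ≤ |(i : ℝ) / M - (2 + (j : ℝ) / (M : ℝ) ^ 2)| := by
      rw [abs_sub_comm]
      exact le_trans (by linarith [h1.2, h2.1]) (le_abs_self _)
    have h5 : 2 + σ / (M : ℝ) ^ 2 - (i : ℝ) / M - (2 + (j : ℝ) / (M : ℝ) ^ 2)
        = (σ - ((i * M + j : ℕ) : ℝ)) / (M : ℝ) ^ 2 := by
      push_cast
      field_simp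
      ring
    rw [h5, abs_div, abs_of_pos (show (0 : ℝ) < (M : ℝ) ^ 2 by positivity)]
    have h6 := hσ (i * M + j)
    calc 1 / (4 * (M : ℝ) ^ 2) = 1 * ((1 / 4) / (M : ℝ) ^ 2) := by field_simp
      _ ≤ _ := by gcongr
  rcases mem_centers h with ⟨i, hi, rfl⟩ | ⟨j, hj, rfl⟩ <;>
  rcases mem_centers h' with ⟨i', hi', rfl⟩ | ⟨j', hj', rfl⟩
  · have hii : i ≠ i' := by
      rintro rfl
      exact hne rfl
    have h1 : (i : ℝ) / M - (i' : ℝ) / M = ((i : ℝ) - i') / M := by ring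
    have h2 : 1 / (M : ℝ) ≤ |(i : ℝ) / M - (i' : ℝ) / M| := by
      rw [h1, abs_div, abs_of_pos hM0]
      gcongr
      exact hnat i i' hii
    have h3 := a_bounds hM hi
    have h4 := a_bounds hM hi'
    have h5 : 1 / (M : ℝ) ≤ |2 + σ / (M : ℝ) ^ 2 - (i : ℝ) / M - (i' : ℝ) / M| := by
      refine le_trans ?_ (le_abs_self _)
      have : (0 : ℝ) < 1 / M := by positivity
      linarith [h3.2, h4.2]
    calc 1 / (4 * (M : ℝ) ^ 2) ≤ 1 / (M : ℝ) ^ 2 := by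
          apply one_div_le_one_div_of_le (by positivity)
          nlinarith
      _ = 1 / (M : ℝ) * (1 / (M : ℝ)) := by
          field_simp
      _ ≤ _ := by gcongr
  · exact hmix i j' hi hj'
  · have := hmix i' j hi' hj
    rw [abs_sub_comm (2 + (j : ℝ) / (M : ℝ) ^ 2)]
    have h5 : 2 + σ / (M : ℝ) ^ 2 - (2 + (j : ℝ) / (M : ℝ) ^ 2) - (i' : ℝ) / M
      = 2 + σ / (M : ℝ) ^ 2 - (i' : ℝ) / M - (2 + (j : ℝ) / (M : ℝ) ^ 2) := by ring
    rw [h5]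
    exact this
  · have hjj : j ≠ j' := by
      rintro rfl
      exact hne rfl
    have h1 := centers_sep hM h h' hne
    have h3 := b_bounds hM hj
    have h4 := b_bounds hM hj'
    have h5 : 1 ≤ |2 + σ / (M : ℝ) ^ 2 - (2 + (j : ℝ) / (M : ℝ) ^ 2)
        - (2 + (j' : ℝ) / (M : ℝ) ^ 2)| := by
      rw [abs_sub_comm]
      refine le_trans ?_ (le_abs_self _)
      have e1 : 0 ≤ (j : ℝ) / (M : ℝ) ^ 2 := by positivity
      have e2 : 0 ≤ (j' : ℝ) / (M : ℝ) ^ 2 := by positivity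
      linarith
    calc 1 / (4 * (M : ℝ) ^ 2) ≤ 1 / (M : ℝ) ^ 2 * 1 := by
          rw [mul_one]
          apply one_div_le_one_div_of_le (by positivity)
          nlinarith
      _ ≤ _ := by gcongr

/-- Resonance. -/
theorem res {M : ℕ} (hM : 0 < M) {σ ε : ℝ} {q : ℕ} (hq : q < M ^ 2)
    (hσ : |σ - q| ≤ ε) :
    ∃ c ∈ centers M, ∃ c' ∈ centers M, c ≠ c' ∧
      |c - c'| * |2 * (1 + σ / (2 * (M : ℝ) ^ 2)) - c - c'| ≤ 3 * (ε / (M : ℝ) ^ 2) := by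
  have hM' : (1 : ℝ) ≤ M := by exact_mod_cast hM
  have hM0 : (0 : ℝ) < M := by linarith
  have hi : q / M < M := by
    rw [Nat.div_lt_iff_lt_mul hM]
    nlinarith [hq]
  have hj : q % M < M := Nat.mod_lt _ hM
  have hs : 2 * (1 + σ / (2 * (M : ℝ) ^ 2)) = 2 + σ / (M : ℝ) ^ 2 := by
    field_simp
  have h1 := a_bounds hM hi
  have h2 := b_bounds hM hj
  have h3 : (0 : ℝ) < 1 / M := by positivity
  refine ⟨((q / M : ℕ) : ℝ) / M, ?_, 2 + ((q % M : ℕ) : ℝ) / (M : ℝ) ^ 2, ?_, ?_, ?_⟩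
  · rw [centers, Finset.mem_union]
    left
    exact Finset.mem_image.mpr ⟨q / M, Finset.mem_range.mpr hi, rfl⟩
  · rw [centers, Finset.mem_union]
    right
    exact Finset.mem_image.mpr ⟨q % M, Finset.mem_range.mpr hj, rfl⟩
  · intro h
    rw [h] at h1
    linarith [h1.2, h2.1]
  · have h4 : |((q / M : ℕ) : ℝ) / M - (2 + ((q % M : ℕ) : ℝ) / (M : ℝ) ^ 2)| ≤ 3 := by
      rw [abs_le]
      constructor <;> linarith [h1.1, h1.2, h2.1, h2.2]
    have h5 : 2 + σ / (M : ℝ) ^ 2 - ((q / M : ℕ) : ℝ) / M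
        - (2 + ((q % M : ℕ) : ℝ) / (M : ℝ) ^ 2) = (σ - q) / (M : ℝ) ^ 2 := by
      have h6 : ((q / M : ℕ) : ℝ) * M + ((q % M : ℕ) : ℝ) = q := by
        exact_mod_cast Nat.div_add_mod' q M
      have h7 : (q : ℝ) / (M : ℝ) ^ 2 = ((q / M : ℕ) : ℝ) / M + ((q % M : ℕ) : ℝ) / (M : ℝ) ^ 2 := by
        rw [← h6]
        field_simp
      rw [sub_div, h7]
      ring
    rw [hs, h5, abs_div, abs_of_pos (show (0 : ℝ) < (M : ℝ) ^ 2 by positivity)]
    gcongr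

end Pool.Agent.Lib.MP_ff3fe0_an
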