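import Mathlib

/-!
# Definitions

The normalised surface measure on the unit sphere of `ℝ^d`, the spherical maximal function and
weak gradients.
-/

namespace Pool.Agent.Lib.MP_ff3fe0_an

open MeasureTheory Metric Set
open scoped ENNReal NNReal ContDiff

/-- Euclidean space `ℝ^d`. -/
abbrev E (d : ℕ) : Type := EuclideanSpace ℝ (Fin d)

/-- The rotation invariant surface measure on the unit sphere of `ℝ^d`, normalised to have total
mass `1`. -/
noncomputable def sigma (d : ℕ) : Measure (sphere (0 : E d) 1) :=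
  ((volume : Measure (E d)).toSphere univ)⁻¹ • (volume : Measure (E d)).toSphere

/-- The spherical maximal function `M_S f (x) = sup_{t > 0} ∫ |f (x - t y)| dσ(y)`. -/
noncomputable def sphMax {d : ℕ} (f : E d → ℝ) (x : E d) : ℝ≥0∞ :=
  ⨆ t : ℝ, ⨆ _ : 0 < t, ∫⁻ y, ‖f (x - t • (y : E d))‖ₑ ∂(sigma d)

/-- `G` is the weak gradient of `u` on `ℝ^d`: both are locally integrable and
`∫ u ∂ᵢφ = - ∫ Gᵢ φ` for all test functions `φ ∈ C_c^∞` and all coordinates `i`. -/
def IsWeakGradient {d : ℕ} (u : E d → ℝ) (G : E d → E d) : Prop :=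
  LocallyIntegrable u ∧ LocallyIntegrable G ∧
    ∀ φ : E d → ℝ, ContDiff ℝ ∞ φ → HasCompactSupport φ → ∀ i : Fin d,
      ∫ x, u x * fderiv ℝ φ x (EuclideanSpace.single i 1) = - ∫ x, G x i * φ x

end Pool.Agent.Lib.MP_ff3fe0_an
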