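import Pool.Agent.Lib.MP_ff3fe0_an.TestFn

/-!
# Lower bound for the weak gradient by duality
-/

namespace Pool.Agent.Lib.MP_ff3fe0_an

open MeasureTheory Metric Set
open scoped ENNReal NNReal ContDiff Pointwise

theorem pos_of_two_le {d : ℕ} (hd : 2 ≤ d) : 0 < d := by omega

theorem one_lt_of_two_le {d : ℕ} (hd : 2 ≤ d) : 1 < d := by omega

/-- The centre of the boxes. -/
noncomputable def boxC {d : ℕ} (hd : 2 ≤ d) (R s : ℝ) : Fin d → ℝ := fun i =>
  if i = ⟨0, pos_of_two_le hd⟩ then s else if i = ⟨1, one_lt_of_two_le hd⟩ then R else 0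

/-- The half widths of the boxes. -/
noncomputable def boxW {d : ℕ} (hd : 2 ≤ d) (w : ℝ) : Fin d → ℝ := fun i =>
  if i = ⟨0, pos_of_two_le hd⟩ then w else 1 / (4 * d)

/-- A box. -/
noncomputable def box {d : ℕ} (hd : 2 ≤ d) (R s w : ℝ) : Set (E d) :=
  (WithLp.ofLp : E d → (Fin d → ℝ)) ⁻¹'
    (Icc (boxC hd R s - boxW hd w) (boxC hd R s + boxW hd w))

theorem volume_box {d : ℕ} (hd : 2 ≤ d) (R s w : ℝ) (hw : 0 ≤ w) :
    volume (box hd R s w) = ENNReal.ofReal (2 * w * (1 / (2 * (d : ℝ))) ^ (d - 1)) := by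
  have hd1 : (2 : ℝ) ≤ d := by exact_mod_cast hd
  rw [box, (PiLp.volume_preserving_ofLp (Fin d)).measure_preimage
    measurableSet_Icc.nullMeasurableSet, Real.volume_Icc_pi]
  rw [← ENNReal.ofReal_prod_of_nonneg]
  · congr 1
    rw [← Finset.prod_erase_mul _ _ (Finset.mem_univ (⟨0, pos_of_two_le hd⟩ : Fin d))]
    rw [Finset.prod_congr rfl (g := fun _ => 1 / (2 * (d : ℝ)))]
    · simp [boxW, boxC]
      ring
    · intro i hi
      simp only [Pi.add_apply, Pi.sub_apply, boxW]
      rw [if_neg (Finset.ne_of_mem_erase hi)]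
      field_simp
      ring
  · intro i _
    simp only [Pi.add_apply, Pi.sub_apply, boxW]
    split_ifs
    · linarith
    · have : 0 ≤ 1 / (4 * (d : ℝ)) := by positivity
      linarith

theorem measurableSet_box {d : ℕ} (hd : 2 ≤ d) (R s w : ℝ) : MeasurableSet (box hd R s w) :=
  (PiLp.volume_preserving_ofLp (Fin d)).measurable measurableSet_Icc

/-- The second basis vector. -/
noncomputable def e1 {d : ℕ} (hd : 2 ≤ d) : E d := EuclideanSpace.single ⟨1, one_lt_of_two_le hd⟩ 1

theorem norm_e1 {d : ℕ} (hd : 2 ≤ d) : ‖e1 hd‖ = 1 := by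
  simp [e1]

theorem box_coord {d : ℕ} (hd : 2 ≤ d) {R s w : ℝ} {x : E d} (hx : x ∈ box hd R s w) (i : Fin d) :
    |x i - boxC hd R s i| ≤ boxW hd w i := by
  obtain ⟨h1, h2⟩ := hx
  have h1i := h1 i
  have h2i := h2 i
  simp only [Pi.add_apply, Pi.sub_apply] at h1i h2i
  rw [abs_le]
  constructor <;> linarith

theorem box_proj {d : ℕ} (hd : 2 ≤ d) {R s w : ℝ} {x : E d} (hx : x ∈ box hd R s w) :
    ‖proj (pos_of_two_le hd) x - R • e1 hd‖ ≤ 1 / 4 := by
  have hd1 : (2 : ℝ) ≤ d := by exact_mod_cast hd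
  have hsq : ‖proj (pos_of_two_le hd) x - R • e1 hd‖ ^ 2 ≤ (1 / 4) ^ 2 := by
    rw [EuclideanSpace.norm_sq_eq]
    calc ∑ i, ‖(proj (pos_of_two_le hd) x - R • e1 hd) i‖ ^ 2
        ≤ ∑ _i : Fin d, (1 / (4 * (d : ℝ))) ^ 2 := by
          apply Finset.sum_le_sum
          intro i _
          have h := box_coord hd hx i
          by_cases hi : i = ⟨0, pos_of_two_le hd⟩
          · have : (proj (pos_of_two_le hd) x - R • e1 hd) i = 0 := by
              subst hi
              simp [proj, e0, e1]
            rw [this]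
            simp
          · have h3 : (proj (pos_of_two_le hd) x - R • e1 hd) i = x i - boxC hd R s i := by
              simp only [boxC, if_neg hi]
              by_cases hi1 : i = ⟨1, one_lt_of_two_le hd⟩
              · subst hi1
                simp [proj, e0, e1]
              · rw [if_neg hi1]
                simp [proj, e0, e1, hi, hi1]
            rw [h3, Real.norm_eq_abs]
            simp only [boxW, if_neg hi] at h
            gcongr
      _ = 1 / (16 * (d : ℝ)) := by
          rw [Finset.sum_const, Finset.card_univ, Fintype.card_fin, nsmul_eq_mul]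
          field_simp
          norm_num
      _ ≤ (1 / 4) ^ 2 := by
          have : 1 / (16 * (d : ℝ)) ≤ 1 / 16 := by
            apply one_div_le_one_div_of_le (by norm_num)
            linarith
          linarith
  exact (sq_le_sq₀ (norm_nonneg _) (by norm_num)).mp hsq

/-- The lower bound constant. -/
noncomputable def cA (d : ℕ) : ℝ := 1 / (768 * (d : ℝ)) / 2 * (1 / (2 * (d : ℝ))) ^ (d - 1)

theorem cA_pos {d : ℕ} (hd : 2 ≤ d) : 0 < cA d := by
  have hd1 : (2 : ℝ) ≤ d := by exact_mod_cast hd
  unfold cA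
  positivity

theorem dual_lower {d : ℕ} (hd : 2 ≤ d) (u : E d → ℝ) (G : E d → E d) (hG : IsWeakGradient u G)
    {U R : ℝ} (hU : 0 < U) (hR : 1 ≤ R) {m : ℕ} (hm : 0 < m)
    (h1 : ∀ x : E d, ∀ q : ℕ, q < m → |2 * m * (x ⟨0, pos_of_two_le hd⟩ - 1) - q| ≤ 1 / (768 * d) →
      R - 1 / 2 ≤ ‖proj (pos_of_two_le hd) x‖ → ‖proj (pos_of_two_le hd) x‖ ≤ R + 1 / 2 →
      3 / 2 * U ≤ u x)
    (h2 : ∀ x : E d, ∀ q : ℕ, q < m → |2 * m * (x ⟨0, pos_of_two_le hd⟩ - 1) - q - 1 / 2| ≤ 1 / (768 * d) →
      R - 1 / 2 ≤ ‖proj (pos_of_two_le hd) x‖ → ‖proj (pos_of_two_le hd) x‖ ≤ R + 1 / 2 →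
      u x ≤ U) :
    m * U * cA d ≤ ∫ x in closedBall (0 : E d) (R + 3), ‖G x‖ := by
  have hd0 : 0 < d := by omega
  have hd1 : (2 : ℝ) ≤ d := by exact_mod_cast hd
  have hm1 : (1 : ℝ) ≤ m := by exact_mod_cast hm
  have hε : 0 < 1 / (768 * (d : ℝ)) := by positivity
  have hε' : 1 / (768 * (d : ℝ)) ≤ 1 / 2 := by
    apply one_div_le_one_div_of_le (by norm_num)
    linarith
  set ε : ℝ := 1 / (768 * (d : ℝ)) with hεdef
  obtain ⟨hu, hGl, hw⟩ := hG
  let B : ContDiffBump (R • e1 hd : E d) := ⟨1 / 4, 1 / 2, by norm_num, by norm_num⟩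
  have hBc : ContDiff ℝ ∞ B := B.contDiff
  have hBz : ∀ z : E d, 1 / 2 ≤ ‖z - R • e1 hd‖ → B z = 0 := by
    intro z hz
    apply B.zero_of_le_dist
    rw [dist_eq_norm]
    exact hz
  have hnR : ‖(R • e1 hd : E d)‖ = R := by
    rw [norm_smul, norm_e1, mul_one, Real.norm_eq_abs, abs_of_nonneg (by linarith)]
  have hBreg : ∀ z : E d, B z ≠ 0 → R - 1 / 2 ≤ ‖z‖ ∧ ‖z‖ ≤ R + 1 / 2 := by
    intro z hz
    have h3 : ‖z - R • e1 hd‖ < 1 / 2 := by
      by_contra hcon
      push Not at hcon
      exact hz (hBz z hcon)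
    have h4 := abs_norm_sub_norm_le z (R • e1 hd)
    rw [hnR] at h4
    have h5 := abs_le.mp (h4.trans h3.le)
    constructor <;> linarith [h5.1, h5.2]
  have hBz' : ∀ z : E d, R + 1 / 2 ≤ ‖z‖ → B z = 0 := by
    intro z hz
    apply hBz
    have h4 := norm_sub_norm_le z (R • e1 hd)
    rw [hnR] at h4
    linarith
  set Φ : E d → ℝ := tst hd0 hε m B with hΦ
  have hΦc : ContDiff ℝ ∞ Φ := tst_contDiff hd0 hε m hBc
  have hΦ0 : ∀ x : E d, x ∉ closedBall (0 : E d) (R + 3) → Φ x = 0 := by
    intro x hx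
    rw [mem_closedBall, dist_zero_right] at hx
    push Not at hx
    exact tst_zero hd0 hε hε' hm hBz' hx.le
  have hΦs : HasCompactSupport Φ := HasCompactSupport.intro (isCompact_closedBall 0 (R + 3)) hΦ0
  have hΦnn : ∀ x, 0 ≤ Φ x := fun x => mul_nonneg (Sm_nonneg hε m _) B.nonneg
  have hΦle : ∀ x, Φ x ≤ 1 := by
    intro x
    calc Φ x ≤ 1 * 1 := mul_le_mul (Sm_le hε hε' m _) B.le_one B.nonneg (by norm_num)
      _ = 1 := one_mul 1
  -- the derivative
  have hDc : Continuous (fun x => fderiv ℝ Φ x (e0 hd0)) :=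
    (hΦc.continuous_fderiv (by simp)).clm_apply continuous_const
  have hDs : HasCompactSupport (fun x => fderiv ℝ Φ x (e0 hd0)) := by
    apply HasCompactSupport.intro (isCompact_closedBall 0 (R + 3))
    intro x hx
    have : x ∉ tsupport (fderiv ℝ Φ) := by
      intro hmem
      have h3 := tsupport_fderiv_subset ℝ hmem
      have h4 : tsupport Φ ⊆ closedBall (0 : E d) (R + 3) := by
        apply closure_minimal _ isClosed_closedBall
        intro z hz
        by_contra hcon
        exact hz (hΦ0 z hcon)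
      exact hx (h4 h3)
    rw [image_eq_zero_of_notMem_tsupport this]
    rfl
  have hDint : Integrable (fun x => fderiv ℝ Φ x (e0 hd0)) := hDc.integrable_of_hasCompactSupport hDs
  have hDzero : ∫ x, fderiv ℝ Φ x (e0 hd0) = 0 := by
    have h3 := integral_mul_fderiv_eq_neg_fderiv_mul_of_integrable (𝕜 := ℝ) (μ := volume)
      (f := fun _ : E d => (1 : ℝ)) (g := Φ) (v := e0 hd0) (by simp) (by simpa using hDint)
      (by simpa using hΦc.continuous.integrable_of_hasCompactSupport hΦs)
      (by intro x _; exact differentiableAt_const _)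
      (by intro x _; exact (hΦc.differentiable (by simp)).differentiableAt)
    simpa using h3
  have huD : Integrable (fun x => u x * fderiv ℝ Φ x (e0 hd0)) := by
    have := hu.integrable_smul_right_of_hasCompactSupport hDc hDs
    simpa using this
  set A : E d → ℝ := fun x =>
    (∑ q ∈ Finset.range m, b1 hε (2 * m * (x ⟨0, hd0⟩ - 1) - q)) * B (proj hd0 x) with hA
  have hformula : ∀ x, fderiv ℝ Φ x (e0 hd0) = 2 * m * (A x -
      (∑ q ∈ Finset.range m, b1 hε (2 * m * (x ⟨0, hd0⟩ - 1) - q - 1 / 2)) * B (proj hd0 x)) := by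
    intro x
    rw [hΦ, fderiv_tst hd0 hε m hBc, hA, Finset.sum_sub_distrib]
    ring
  have hAnn : ∀ x, 0 ≤ A x := by
    intro x
    exact mul_nonneg (Finset.sum_nonneg fun _ _ => (b1 hε).nonneg) B.nonneg
  -- pointwise inequality
  have hpt : ∀ x, m * U * A x ≤ (u x - U) * fderiv ℝ Φ x (e0 hd0) := by
    intro x
    rw [hformula]
    set A' : ℝ :=
      (∑ q ∈ Finset.range m, b1 hε (2 * m * (x ⟨0, hd0⟩ - 1) - q - 1 / 2)) * B (proj hd0 x) with hA'
    have hA'nn : 0 ≤ A' :=
      mul_nonneg (Finset.sum_nonneg fun _ _ => (b1 hε).nonneg) B.nonneg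
    have hApos : 0 < A x → 3 / 2 * U ≤ u x := by
      intro hpos
      have hB0 : B (proj hd0 x) ≠ 0 := by
        intro h0
        rw [hA] at hpos
        simp only [h0, mul_zero] at hpos
        exact lt_irrefl _ hpos
      obtain ⟨hr1, hr2⟩ := hBreg _ hB0
      have hS : ∑ q ∈ Finset.range m, b1 hε (2 * m * (x ⟨0, hd0⟩ - 1) - q) ≠ 0 := by
        intro h0
        rw [hA] at hpos
        simp only [h0, zero_mul] at hpos
        exact lt_irrefl _ hpos
      obtain ⟨q, hq, hq0⟩ := Finset.exists_ne_zero_of_sum_ne_zero hS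
      apply h1 x q (Finset.mem_range.mp hq) _ hr1 hr2
      by_contra hcon
      push Not at hcon
      exact hq0 (b1_zero hε hcon.le)
    have hA'pos : 0 < A' → u x ≤ U := by
      intro hpos
      have hB0 : B (proj hd0 x) ≠ 0 := by
        intro h0
        rw [hA'] at hpos
        simp only [h0, mul_zero] at hpos
        exact lt_irrefl _ hpos
      obtain ⟨hr1, hr2⟩ := hBreg _ hB0
      have hS : ∑ q ∈ Finset.range m, b1 hε (2 * m * (x ⟨0, hd0⟩ - 1) - q - 1 / 2) ≠ 0 := by
        intro h0
        rw [hA'] at hpos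
        simp only [h0, zero_mul] at hpos
        exact lt_irrefl _ hpos
      obtain ⟨q, hq, hq0⟩ := Finset.exists_ne_zero_of_sum_ne_zero hS
      apply h2 x q (Finset.mem_range.mp hq) _ hr1 hr2
      by_contra hcon
      push Not at hcon
      exact hq0 (b1_zero hε hcon.le)
    rcases (hAnn x).eq_or_lt with h3 | h3
    · rw [← h3]
      rcases hA'nn.eq_or_lt with h4 | h4
      · rw [← h4]
        simp
      · have h5 := hA'pos h4
        have h6 : 0 ≤ (U - u x) * (2 * m * A') := by
          apply mul_nonneg (by linarith)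
          positivity
        nlinarith
    · have h4 := hApos h3
      have h5 : A' = 0 := by
        rcases hA'nn.eq_or_lt with h6 | h6
        · exact h6.symm
        · have := hA'pos h6
          linarith
      rw [h5]
      have h7 : 0 ≤ (u x - 3 / 2 * U) * (2 * m * A x) := by
        apply mul_nonneg (by linarith)
        positivity
      nlinarith
  -- integrability of A
  have hAc : Continuous A := by
    rw [hA]
    apply Continuous.mul
    · apply continuous_finsetSum
      intro q _
      exact (b1_cont hε).comp (by fun_prop)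
    · have : (fun x : E d => B (proj hd0 x)) = B ∘ (projL hd0) := by
        funext x
        simp [projL_apply]
      rw [this]
      exact B.continuous.comp (projL hd0).continuous
  have hAs : HasCompactSupport A := by
    apply HasCompactSupport.intro (isCompact_closedBall 0 (R + 3))
    intro x hx
    rw [mem_closedBall, dist_zero_right] at hx
    push Not at hx
    by_contra hne
    have hB0 : B (proj hd0 x) ≠ 0 := by
      intro h0
      apply hne
      rw [hA]
      simp only [h0, mul_zero]
    obtain ⟨hr1, hr2⟩ := hBreg _ hB0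
    have hS : ∑ q ∈ Finset.range m, b1 hε (2 * m * (x ⟨0, hd0⟩ - 1) - q) ≠ 0 := by
      intro h0
      apply hne
      rw [hA]
      simp only [h0, zero_mul]
    obtain ⟨q, hq, hq0⟩ := Finset.exists_ne_zero_of_sum_ne_zero hS
    have h3 : |2 * m * (x ⟨0, hd0⟩ - 1) - q| < ε := by
      by_contra hcon
      push Not at hcon
      exact hq0 (b1_zero hε hcon)
    have h4 := abs_lt.mp h3
    have hq0' : (0 : ℝ) ≤ q := by positivity
    have hq1 : (q : ℝ) + 1 ≤ m := by exact_mod_cast Finset.mem_range.mp hq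
    have h5 : |x ⟨0, hd0⟩| ≤ 2 := by
      rw [abs_le]
      constructor
      · nlinarith [h4.1]
      · nlinarith [h4.2]
    have h6 := norm_le_axis hd0 x
    linarith
  have hAint : Integrable A := hAc.integrable_of_hasCompactSupport hAs
  -- lower bound for ∫ A
  have hw0 : 0 ≤ ε / (4 * m) := by positivity
  have hAlow : cA d ≤ ∫ x, A x := by
    have hsub : ∀ x, ∑ q ∈ Finset.range m,
        (box hd R (1 + q / (2 * m)) (ε / (4 * m))).indicator (fun _ => (1 : ℝ)) x ≤ A x := by
      intro x
      rw [hA]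
      simp only
      rw [Finset.sum_mul]
      apply Finset.sum_le_sum
      intro q _
      by_cases hx : x ∈ box hd R (1 + q / (2 * m)) (ε / (4 * m))
      · rw [Set.indicator_of_mem hx]
        have h3 : B (proj hd0 x) = 1 := by
          apply B.one_of_mem_closedBall
          rw [mem_closedBall, dist_eq_norm]
          exact box_proj hd hx
        have h4 : b1 hε (2 * m * (x ⟨0, hd0⟩ - 1) - q) = 1 := by
          apply b1_one
          have h5 := box_coord hd hx ⟨0, hd0⟩
          simp only [boxC, boxW, if_true] at h5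
          have h6 : 2 * m * (x ⟨0, hd0⟩ - 1) - q = 2 * m * (x ⟨0, hd0⟩ - (1 + q / (2 * m))) := by
            field_simp
            ring
          rw [h6, abs_mul, abs_of_pos (by positivity : (0 : ℝ) < 2 * m)]
          calc 2 * m * |x ⟨0, hd0⟩ - (1 + q / (2 * m))| ≤ 2 * m * (ε / (4 * m)) := by gcongr
            _ = ε / 2 := by
              field_simp
              norm_num
        rw [h3, h4]
        norm_num
      · rw [Set.indicator_of_notMem hx]
        exact mul_nonneg (b1 hε).nonneg B.nonneg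
    have hvol : ∀ q : ℕ, volume (box hd R (1 + q / (2 * m)) (ε / (4 * m)))
        = ENNReal.ofReal (2 * (ε / (4 * m)) * (1 / (2 * (d : ℝ))) ^ (d - 1)) := by
      intro q
      exact volume_box hd R _ _ hw0
    have hbint : ∀ q ∈ Finset.range m, Integrable
        ((box hd R (1 + q / (2 * m)) (ε / (4 * m))).indicator (fun _ => (1 : ℝ))) := by
      intro q _
      rw [integrable_indicator_iff (measurableSet_box hd _ _ _)]
      exact integrableOn_const (hs := by rw [hvol]; exact ENNReal.ofReal_ne_top) (hC := by simp)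
    calc cA d = ∑ q ∈ Finset.range m,
          ∫ x, (box hd R (1 + q / (2 * m)) (ε / (4 * m))).indicator (fun _ => (1 : ℝ)) x := by
          have : ∀ q ∈ Finset.range m,
              ∫ x, (box hd R (1 + q / (2 * m)) (ε / (4 * m))).indicator (fun _ => (1 : ℝ)) x
              = 2 * (ε / (4 * m)) * (1 / (2 * (d : ℝ))) ^ (d - 1) := by
            intro q _
            rw [integral_indicator (measurableSet_box hd _ _ _), setIntegral_const, smul_eq_mul,
              mul_one, Measure.real, hvol, ENNReal.toReal_ofReal (by positivity)]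
          rw [Finset.sum_congr rfl this, Finset.sum_const, Finset.card_range, nsmul_eq_mul, cA,
            ← hεdef]
          field_simp
          norm_num
      _ = ∫ x, ∑ q ∈ Finset.range m,
          (box hd R (1 + q / (2 * m)) (ε / (4 * m))).indicator (fun _ => (1 : ℝ)) x := by
          rw [integral_finsetSum _ hbint]
      _ ≤ ∫ x, A x := by
          apply integral_mono (integrable_finsetSum _ hbint) hAint
          intro x
          exact hsub x
  -- upper bound
  have hweak := hw Φ hΦc hΦs ⟨0, hd0⟩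
  have hint2 : IntegrableOn (fun x => ‖G x‖) (closedBall (0 : E d) (R + 3)) :=
    (hGl.integrableOn_isCompact (isCompact_closedBall 0 (R + 3))).norm
  have hupper : - ∫ x, G x ⟨0, hd0⟩ * Φ x ≤ ∫ x in closedBall (0 : E d) (R + 3), ‖G x‖ := by
    rw [← integral_indicator measurableSet_closedBall]
    calc - ∫ x, G x ⟨0, hd0⟩ * Φ x ≤ ‖∫ x, G x ⟨0, hd0⟩ * Φ x‖ := by
          rw [Real.norm_eq_abs]
          exact neg_le_abs _
      _ ≤ ∫ x, ‖G x ⟨0, hd0⟩ * Φ x‖ := norm_integral_le_integral_norm _
      _ ≤ ∫ x, (closedBall (0 : E d) (R + 3)).indicator (fun x => ‖G x‖) x := by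
          apply integral_mono_of_nonneg
          · exact Filter.Eventually.of_forall fun x => norm_nonneg _
          · rw [integrable_indicator_iff measurableSet_closedBall]
            exact hint2
          · refine Filter.Eventually.of_forall fun x => ?_
            show ‖G x ⟨0, hd0⟩ * Φ x‖ ≤ _
            by_cases hx : x ∈ closedBall (0 : E d) (R + 3)
            · rw [Set.indicator_of_mem hx, norm_mul]
              calc ‖G x ⟨0, hd0⟩‖ * ‖Φ x‖ ≤ ‖G x‖ * 1 := by
                    gcongr
                    · exact PiLp.norm_apply_le (G x) ⟨0, hd0⟩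
                    · rw [Real.norm_eq_abs, abs_of_nonneg (hΦnn x)]
                      exact hΦle x
                _ = ‖G x‖ := mul_one _
            · rw [Set.indicator_of_notMem hx, hΦ0 x hx, mul_zero, norm_zero]
  calc m * U * cA d ≤ m * U * ∫ x, A x := by
        gcongr
    _ = ∫ x, m * U * A x := by rw [integral_const_mul]
    _ ≤ ∫ x, (u x - U) * fderiv ℝ Φ x (e0 hd0) := by
        apply integral_mono (hAint.const_mul _) _ hpt
        have : (fun x => (u x - U) * fderiv ℝ Φ x (e0 hd0))
            = fun x => u x * fderiv ℝ Φ x (e0 hd0) - U * fderiv ℝ Φ x (e0 hd0) := by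
          funext x
          ring
        rw [this]
        exact huD.sub (hDint.const_mul U)
    _ = ∫ x, (u x * fderiv ℝ Φ x (e0 hd0) - U * fderiv ℝ Φ x (e0 hd0)) := by
        congr 1
        funext x
        ring
    _ = ∫ x, u x * fderiv ℝ Φ x (e0 hd0) := by
        rw [integral_sub huD (hDint.const_mul U), integral_const_mul, hDzero]
        ring
    _ = - ∫ x, G x ⟨0, hd0⟩ * Φ x := hweak
    _ ≤ ∫ x in closedBall (0 : E d) (R + 3), ‖G x‖ := hupper

end Pool.Agent.Lib.MP_ff3fe0_an
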