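import Pool.Agent.Lib.MP_ff3fe0_an.Dual

/-!
# Norms of the sum of bumps
-/

namespace Pool.Agent.Lib.MP_ff3fe0_an

open MeasureTheory Metric Set
open scoped ENNReal NNReal ContDiff Pointwise

theorem norm_sum_le_of_disjoint {ι V : Type*} [NormedAddCommGroup V] (K : Finset ι) (v : ι → V)
    {C : ℝ} (hC : 0 ≤ C) (hv : ∀ c ∈ K, ‖v c‖ ≤ C)
    (hdis : ∀ c ∈ K, ∀ c' ∈ K, c ≠ c' → v c = 0 ∨ v c' = 0) : ‖∑ c ∈ K, v c‖ ≤ C := by
  classical
  by_cases hex : ∃ c ∈ K, v c ≠ 0
  · obtain ⟨c, hc, hne⟩ := hex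
    rw [Finset.sum_eq_single_of_mem c hc]
    · exact hv c hc
    · intro b hb hbc
      rcases hdis b hb c hc hbc with h | h
      · exact h
      · exact absurd h hne
  · push Not at hex
    rw [Finset.sum_eq_zero hex, norm_zero]
    exact hC

variable {d : ℕ}

/-- The profile of the bumps. -/
noncomputable def profile (d : ℕ) (hd : 0 < d) : ContDiffBump (0 : E d) :=
  ⟨1 - 1 / (16 * (d : ℝ)), 1, by
    have h1 : (1 : ℝ) ≤ d := by exact_mod_cast hd
    have : 1 / (16 * (d : ℝ)) ≤ 1 / 16 := by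
      apply one_div_le_one_div_of_le (by norm_num)
      linarith
    linarith, by
    have h1 : (1 : ℝ) ≤ d := by exact_mod_cast hd
    have : 0 < 1 / (16 * (d : ℝ)) := by positivity
    linarith⟩

theorem profile_zero (hd : 0 < d) (z : E d) (hz : 1 ≤ ‖z‖) : profile d hd z = 0 := by
  apply (profile d hd).zero_of_le_dist
  rw [dist_zero_right]
  exact hz

theorem profile_one (hd : 0 < d) (z : E d) (hz : ‖z‖ ≤ 1 - 1 / (16 * (d : ℝ))) :
    profile d hd z = 1 := by
  apply (profile d hd).one_of_mem_closedBall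
  rw [mem_closedBall, dist_zero_right]
  exact hz

/-- A bound for the derivative of the profile. -/
theorem exists_deriv_bound (hd : 0 < d) :
    ∃ L : ℝ, 0 ≤ L ∧ ∀ z, ‖fderiv ℝ (profile d hd) z‖ ≤ L := by
  have hc : Continuous (fderiv ℝ (profile d hd)) :=
    (profile d hd).contDiff.continuous_fderiv (n := 1) (by simp)
  have hs : HasCompactSupport (fderiv ℝ (profile d hd)) :=
    (profile d hd).hasCompactSupport.fderiv ℝ
  obtain ⟨L, hL⟩ := hc.bounded_above_of_compact_support hs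
  exact ⟨max L 0, le_max_right _ _, fun z => (hL z).trans (le_max_left _ _)⟩

/-- One bump. -/
noncomputable def bump (d : ℕ) (hd : 0 < d) (r c : ℝ) (z : E d) : ℝ :=
  profile d hd (r⁻¹ • (z - c • e0 hd))

theorem bump_contDiff (hd : 0 < d) (r c : ℝ) : ContDiff ℝ ∞ (bump d hd r c) := by
  unfold bump
  exact (profile d hd).contDiff.comp (by fun_prop)

theorem bump_zero (hd : 0 < d) {r : ℝ} (hr : 0 < r) (c : ℝ) (z : E d) (hz : r ≤ ‖z - c • e0 hd‖) :
    bump d hd r c z = 0 := by
  apply profile_zero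
  rw [norm_inv_smul hr, le_div_iff₀ hr, one_mul]
  exact hz

theorem bump_fderiv (hd : 0 < d) {r : ℝ} (c : ℝ) (z : E d) :
    fderiv ℝ (bump d hd r c) z = r⁻¹ • fderiv ℝ (profile d hd) (r⁻¹ • (z - c • e0 hd)) := by
  have h1 : HasFDerivAt (profile d hd) (fderiv ℝ (profile d hd) (r⁻¹ • (z - c • e0 hd)))
      (r⁻¹ • (z - c • e0 hd)) :=
    (((profile d hd).contDiff (n := 1)).differentiable (by simp)).differentiableAt.hasFDerivAt
  have h2 : HasFDerivAt (fun z : E d => r⁻¹ • (z - c • e0 hd))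
      (r⁻¹ • ContinuousLinearMap.id ℝ (E d)) z :=
    ((hasFDerivAt_id z).sub_const (c • e0 hd)).const_smul r⁻¹
  have h3 := h1.comp z h2
  have h4 : bump d hd r c = (profile d hd) ∘ (fun z : E d => r⁻¹ • (z - c • e0 hd)) := rfl
  rw [h4, h3.fderiv]
  ext v
  simp

theorem bump_fderiv_norm (hd : 0 < d) {r : ℝ} (hr : 0 < r) (c : ℝ) {L : ℝ}
    (hL : ∀ z, ‖fderiv ℝ (profile d hd) z‖ ≤ L) (z : E d) :
    ‖fderiv ℝ (bump d hd r c) z‖ ≤ L / r := by
  rw [bump_fderiv, norm_smul, norm_inv, Real.norm_eq_abs, abs_of_pos hr, div_eq_inv_mul]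
  gcongr
  exact hL _

theorem bump_fderiv_zero (hd : 0 < d) {r : ℝ} (hr : 0 < r) (c : ℝ) (z : E d)
    (hz : r < ‖z - c • e0 hd‖) : fderiv ℝ (bump d hd r c) z = 0 := by
  rw [bump_fderiv]
  have : r⁻¹ • (z - c • e0 hd) ∉ tsupport (fderiv ℝ (profile d hd)) := by
    intro hmem
    have h1 := tsupport_fderiv_subset ℝ hmem
    rw [(profile d hd).tsupport_eq, mem_closedBall, dist_zero_right, norm_inv_smul hr] at h1
    have h2 : ‖z - c • e0 hd‖ / r ≤ 1 := h1
    rw [div_le_one hr] at h2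
    linarith
  rw [image_eq_zero_of_notMem_tsupport this, smul_zero]

/-- The function `f_M`. -/
noncomputable def fM (d : ℕ) (hd : 0 < d) (M : ℕ) : E d → ℝ :=
  bumpSum hd (profile d hd) (rr d M) (centers M)

theorem fM_eq (hd : 0 < d) (M : ℕ) (z : E d) :
    fM d hd M z = ∑ c ∈ centers M, bump d hd (rr d M) c z := rfl

theorem fM_contDiff (hd : 0 < d) (M : ℕ) : ContDiff ℝ ∞ (fM d hd M) := by
  have : fM d hd M = fun z => ∑ c ∈ centers M, bump d hd (rr d M) c z := funext (fM_eq hd M)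
  rw [this]
  apply ContDiff.sum
  intro c _
  exact bump_contDiff hd _ _

theorem fM_nonneg (hd : 0 < d) (M : ℕ) (z : E d) : 0 ≤ fM d hd M z := by
  rw [fM_eq]
  exact Finset.sum_nonneg fun _ _ => (profile d hd).nonneg

/-- The union of the supports. -/
noncomputable def supp (d : ℕ) (hd : 0 < d) (M : ℕ) : Set (E d) :=
  ⋃ c ∈ centers M, closedBall (c • e0 hd) (rr d M)

theorem notMem_supp (hd : 0 < d) {M : ℕ} {z : E d} (hz : z ∉ supp d hd M) {c : ℝ}
    (hc : c ∈ centers M) : rr d M < ‖z - c • e0 hd‖ := by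
  by_contra hcon
  push Not at hcon
  apply hz
  rw [supp, Set.mem_iUnion₂]
  exact ⟨c, hc, by rw [mem_closedBall, dist_eq_norm]; exact hcon⟩

theorem measurableSet_supp (hd : 0 < d) (M : ℕ) : MeasurableSet (supp d hd M) :=
  Finset.measurableSet_biUnion _ fun _ _ => measurableSet_closedBall

theorem volume_supp_le (hd : 0 < d) {M : ℕ} (hM : 0 < M) :
    volume (supp d hd M) ≤ ENNReal.ofReal (2 * M * (rr d M) ^ d *
      (volume (ball (0 : E d) 1)).toReal) := by
  have hr := rr_pos hd hM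
  calc volume (supp d hd M) ≤ ∑ c ∈ centers M, volume (closedBall (c • e0 hd : E d) (rr d M)) :=
        measure_biUnion_finset_le _ _
    _ = (centers M).card * (ENNReal.ofReal ((rr d M) ^ d) * volume (ball (0 : E d) 1)) := by
        rw [Finset.sum_congr rfl (g := fun _ => ENNReal.ofReal ((rr d M) ^ d)
          * volume (ball (0 : E d) 1)), Finset.sum_const, nsmul_eq_mul]
        intro c _
        rw [Measure.addHaar_closedBall _ _ hr.le, finrank_euclideanSpace_fin]
    _ ≤ ((2 * M : ℕ) : ℝ≥0∞) * (ENNReal.ofReal ((rr d M) ^ d) * volume (ball (0 : E d) 1)) := by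
        gcongr
        exact card_centers M
    _ = ENNReal.ofReal (2 * M * (rr d M) ^ d * (volume (ball (0 : E d) 1)).toReal) := by
        rw [ENNReal.ofReal_mul (by positivity), ENNReal.ofReal_mul (by positivity),
          ENNReal.ofReal_toReal measure_ball_lt_top.ne, mul_assoc]
        congr 1
        rw [← ENNReal.ofReal_natCast]
        push_cast
        rfl

theorem rr_sep (hd : 0 < d) {M : ℕ} (hM : 0 < M) {c c' : ℝ} (hc : c ∈ centers M)
    (hc' : c' ∈ centers M) (hne : c ≠ c') (z : E d) :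
    rr d M < ‖z - c • e0 hd‖ ∨ rr d M < ‖z - c' • e0 hd‖ := by
  by_contra hcon
  push Not at hcon
  have hd1 : (1 : ℝ) ≤ d := by exact_mod_cast hd
  have hM0 : (0 : ℝ) < M := by exact_mod_cast hM
  have h1 := centers_sep hM hc hc' hne
  have h2 : |c - c'| ≤ 2 * rr d M := by
    have h3 : (c - c') • e0 hd = (z - c' • e0 hd) - (z - c • e0 hd) := by
      rw [sub_smul]
      abel
    have h4 : |c - c'| = ‖(c - c') • e0 hd‖ := by
      rw [norm_smul, norm_e0, mul_one, Real.norm_eq_abs]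
    rw [h4, h3]
    refine (norm_sub_le _ _).trans ?_
    linarith [hcon.1, hcon.2]
  have h3 : 2 * rr d M < 1 / (M : ℝ) ^ 2 := by
    have : 2 * rr d M = (1 / (320 * d)) * (1 / (M : ℝ) ^ 2) := by
      unfold rr
      field_simp
      norm_num
    rw [this]
    have h5 : 1 / (320 * (d : ℝ)) < 1 := by
      rw [div_lt_one (by positivity)]
      linarith
    have h6 : 0 < 1 / (M : ℝ) ^ 2 := by positivity
    nlinarith
  linarith

theorem fM_abs_le (hd : 0 < d) {M : ℕ} (hM : 0 < M) (z : E d) : ‖fM d hd M z‖ ≤ 1 := by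
  rw [fM_eq]
  have hr := rr_pos hd hM
  apply norm_sum_le_of_disjoint _ _ zero_le_one
  · intro c _
    have h0 : 0 ≤ bump d hd (rr d M) c z := (profile d hd).nonneg
    rw [Real.norm_eq_abs, abs_of_nonneg h0]
    exact (profile d hd).le_one
  · intro c hc c' hc' hne
    rcases rr_sep hd hM hc hc' hne z with h | h
    · left
      exact bump_zero hd hr c z h.le
    · right
      exact bump_zero hd hr c' z h.le

theorem fM_fderiv (hd : 0 < d) (M : ℕ) (z : E d) :
    fderiv ℝ (fM d hd M) z = ∑ c ∈ centers M, fderiv ℝ (bump d hd (rr d M) c) z := by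
  have : fM d hd M = fun z => ∑ c ∈ centers M, bump d hd (rr d M) c z := funext (fM_eq hd M)
  rw [this, fderiv_fun_sum]
  intro c _
  exact ((bump_contDiff hd _ _).differentiable (by simp)).differentiableAt

theorem fM_fderiv_le (hd : 0 < d) {M : ℕ} (hM : 0 < M) {L : ℝ} (hL0 : 0 ≤ L)
    (hL : ∀ z, ‖fderiv ℝ (profile d hd) z‖ ≤ L) (z : E d) :
    ‖fderiv ℝ (fM d hd M) z‖ ≤ L / rr d M := by
  have hr := rr_pos hd hM
  rw [fM_fderiv]
  apply norm_sum_le_of_disjoint _ _ (by positivity)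
  · intro c _
    exact bump_fderiv_norm hd hr c hL z
  · intro c hc c' hc' hne
    rcases rr_sep hd hM hc hc' hne z with h | h
    · left
      exact bump_fderiv_zero hd hr c z h
    · right
      exact bump_fderiv_zero hd hr c' z h

theorem eLpNorm_le_of_support {V : Type*} [NormedAddCommGroup V] (g : E d → V) (S : Set (E d))
    {C : ℝ} (hg : ∀ z, ‖g z‖ ≤ C) (hS : Function.support g ⊆ S) (p : ℝ≥0∞) :
    eLpNorm g p volume ≤ volume S ^ p.toReal⁻¹ * ENNReal.ofReal C := by
  rw [← eLpNorm_restrict_eq_of_support_subset hS]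
  have h := eLpNorm_le_of_ae_bound (μ := volume.restrict S) (p := p) (f := g) (C := C)
    (Filter.Eventually.of_forall hg)
  rwa [Measure.restrict_apply_univ] at h

theorem fM_support (hd : 0 < d) {M : ℕ} (hM : 0 < M) :
    Function.support (fM d hd M) ⊆ supp d hd M := by
  intro z hz
  by_contra hcon
  apply hz
  rw [fM_eq]
  apply Finset.sum_eq_zero
  intro c hc
  exact bump_zero hd (rr_pos hd hM) c z (notMem_supp hd hcon hc).le

theorem fM_fderiv_support (hd : 0 < d) {M : ℕ} (hM : 0 < M) :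
    Function.support (fderiv ℝ (fM d hd M)) ⊆ supp d hd M := by
  intro z hz
  by_contra hcon
  apply hz
  rw [fM_fderiv]
  apply Finset.sum_eq_zero
  intro c hc
  exact bump_fderiv_zero hd (rr_pos hd hM) c z (notMem_supp hd hcon hc)

theorem fM_compact (hd : 0 < d) {M : ℕ} (hM : 0 < M) : HasCompactSupport (fM d hd M) := by
  apply HasCompactSupport.intro (isCompact_closedBall (0 : E d) 4)
  intro z hz
  rw [mem_closedBall, dist_zero_right] at hz
  push Not at hz
  rw [fM_eq]
  apply Finset.sum_eq_zero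
  intro c hc
  apply bump_zero hd (rr_pos hd hM)
  have h1 := centers_bounds hM hc
  have h2 := rr_le hd hM
  have h3 := norm_sub_norm_le z (c • e0 hd)
  rw [norm_smul, norm_e0, mul_one, Real.norm_eq_abs, abs_of_nonneg h1.1] at h3
  linarith [h1.2]

/-- The Sobolev norm of `f_M`. -/
theorem fM_norm (hd : 0 < d) {M : ℕ} (hM : 0 < M) {L : ℝ} (hL0 : 0 ≤ L)
    (hL : ∀ z, ‖fderiv ℝ (profile d hd) z‖ ≤ L) {p : ℝ} (hp : 0 < p) :
    eLpNorm (fM d hd M) (ENNReal.ofReal p) volume
      + eLpNorm (fderiv ℝ (fM d hd M)) (ENNReal.ofReal p) volume ≤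
    ENNReal.ofReal ((2 * M * (rr d M) ^ d * (volume (ball (0 : E d) 1)).toReal) ^ p⁻¹ *
      ((1 + L) / rr d M)) := by
  have hr := rr_pos hd hM
  have hr' := rr_le hd hM
  have h1 := eLpNorm_le_of_support (fM d hd M) (supp d hd M) (fM_abs_le hd hM) (fM_support hd hM)
    (ENNReal.ofReal p)
  have h2 := eLpNorm_le_of_support (fderiv ℝ (fM d hd M)) (supp d hd M)
    (fM_fderiv_le hd hM hL0 hL) (fM_fderiv_support hd hM) (ENNReal.ofReal p)
  rw [ENNReal.toReal_ofReal hp.le] at h1 h2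
  have hv := volume_supp_le hd hM
  have hnn : 0 ≤ 2 * M * (rr d M) ^ d * (volume (ball (0 : E d) 1)).toReal := by positivity
  have hv' : volume (supp d hd M) ^ p⁻¹ ≤
      ENNReal.ofReal ((2 * M * (rr d M) ^ d * (volume (ball (0 : E d) 1)).toReal) ^ p⁻¹) := by
    rw [← ENNReal.ofReal_rpow_of_nonneg hnn (by positivity)]
    exact ENNReal.rpow_le_rpow hv (by positivity)
  calc eLpNorm (fM d hd M) (ENNReal.ofReal p) volume
      + eLpNorm (fderiv ℝ (fM d hd M)) (ENNReal.ofReal p) volume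
      ≤ volume (supp d hd M) ^ p⁻¹ * ENNReal.ofReal 1
        + volume (supp d hd M) ^ p⁻¹ * ENNReal.ofReal (L / rr d M) := add_le_add h1 h2
    _ = volume (supp d hd M) ^ p⁻¹ * ENNReal.ofReal (1 + L / rr d M) := by
        rw [← mul_add, ENNReal.ofReal_add (by norm_num) (by positivity)]
    _ ≤ ENNReal.ofReal ((2 * M * (rr d M) ^ d * (volume (ball (0 : E d) 1)).toReal) ^ p⁻¹)
        * ENNReal.ofReal ((1 + L) / rr d M) := by
        apply mul_le_mul' hv'
        apply ENNReal.ofReal_le_ofReal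
        rw [add_div]
        have : 1 ≤ 1 / rr d M := by
          rw [le_div_iff₀ hr]
          linarith
        linarith
    _ = _ := by
        rw [← ENNReal.ofReal_mul (by positivity)]

end Pool.Agent.Lib.MP_ff3fe0_an
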