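import Pool.Agent.Lib.MP_ff3fe0_an.Config

/-!
# Bounds for the spherical maximal function in the resonance and non-resonance regions
-/

namespace Pool.Agent.Lib.MP_ff3fe0_an

open MeasureTheory Metric Set
open scoped ENNReal NNReal ContDiff Pointwise

/-- The projection onto the orthogonal complement of the first coordinate axis. -/
noncomputable def proj {d : ℕ} (hd : 0 < d) (x : E d) : E d := x - (x ⟨0, hd⟩) • e0 hd

theorem norm_sub_sq_axis {d : ℕ} (hd : 0 < d) (x : E d) (c : ℝ) :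
    ‖x - c • e0 hd‖ ^ 2 = (x ⟨0, hd⟩ - c) ^ 2 + ‖proj hd x‖ ^ 2 := by
  have h1 : x - c • e0 hd = (x ⟨0, hd⟩ - c) • e0 hd + proj hd x := by
    rw [proj, sub_smul]
    abel
  have h2 : inner ℝ (e0 hd) (proj hd x) = 0 := by
    rw [proj, inner_sub_right, inner_smul_right, real_inner_self_eq_norm_sq, norm_e0, inner_e0]
    ring
  rw [h1, norm_add_sq_real, real_inner_smul_left, h2, norm_smul, norm_e0, mul_one,
    Real.norm_eq_abs, sq_abs]
  ring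

theorem abs_sub_mul_add_axis {d : ℕ} (hd : 0 < d) (x : E d) (c c' : ℝ) :
    |‖x - c • e0 hd‖ - ‖x - c' • e0 hd‖| * (‖x - c • e0 hd‖ + ‖x - c' • e0 hd‖)
      = |c - c'| * |2 * x ⟨0, hd⟩ - c - c'| := by
  have h1 := norm_sub_sq_axis hd x c
  have h2 := norm_sub_sq_axis hd x c'
  have h3 : (‖x - c • e0 hd‖ - ‖x - c' • e0 hd‖) * (‖x - c • e0 hd‖ + ‖x - c' • e0 hd‖)
      = (c' - c) * (2 * x ⟨0, hd⟩ - c - c') := by
    linear_combination h1 - h2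
  have h4 : 0 ≤ ‖x - c • e0 hd‖ + ‖x - c' • e0 hd‖ := by positivity
  have h5 := congrArg abs h3
  rw [abs_mul, abs_mul, abs_of_nonneg h4, abs_sub_comm c' c] at h5
  exact h5

theorem dist_bounds {d : ℕ} (hd : 0 < d) (x : E d) {c A : ℝ} (hc : 0 ≤ c ∧ c ≤ 3)
    (hx0 : 0 ≤ x ⟨0, hd⟩) (hx1 : x ⟨0, hd⟩ ≤ 2) (h1 : A - 4 - 1 / 2 ≤ ‖proj hd x‖)
    (h2 : ‖proj hd x‖ ≤ A - 4 + 1 / 2) :
    A - 9 / 2 ≤ ‖x - c • e0 hd‖ ∧ ‖x - c • e0 hd‖ ≤ A := by
  have h := norm_sub_sq_axis hd x c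
  have hp := norm_nonneg (proj hd x)
  have hn := norm_nonneg (x - c • e0 hd)
  constructor
  · have : ‖proj hd x‖ ≤ ‖x - c • e0 hd‖ := by
      apply (sq_le_sq₀ hp hn).mp
      nlinarith [sq_nonneg (x ⟨0, hd⟩ - c)]
    linarith
  · have h3 : (x ⟨0, hd⟩ - c) ^ 2 ≤ 3 ^ 2 := by
      apply sq_le_sq'
      · linarith [hc.2]
      · linarith [hc.1]
    have : ‖x - c • e0 hd‖ ≤ ‖proj hd x‖ + 3 := by
      apply (sq_le_sq₀ hn (by linarith)).mp
      nlinarith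
    linarith

/-- The radius of the bumps. -/
noncomputable def rr (d M : ℕ) : ℝ := 1 / (640 * d * (M : ℝ) ^ 2)

/-- The aperture used in the upper bound. -/
noncomputable def tauUp (d M : ℕ) : ℝ := rr d M / (40 * d - 5)

theorem rr_pos {d M : ℕ} (hd : 0 < d) (hM : 0 < M) : 0 < rr d M := by
  have : (0 : ℝ) < d := by exact_mod_cast hd
  have : (0 : ℝ) < M := by exact_mod_cast hM
  unfold rr
  positivity

theorem rr_le {d M : ℕ} (hd : 0 < d) (hM : 0 < M) : rr d M ≤ 1 / 640 := by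
  have h1 : (1 : ℝ) ≤ d := by exact_mod_cast hd
  have h2 : (1 : ℝ) ≤ M := by exact_mod_cast hM
  unfold rr
  apply one_div_le_one_div_of_le (by norm_num)
  have h3 : (1 : ℝ) ≤ (M : ℝ) ^ 2 := by nlinarith
  calc (640 : ℝ) = 640 * 1 * 1 := by norm_num
    _ ≤ 640 * d * (M : ℝ) ^ 2 := by gcongr

theorem tauUp_pos {d M : ℕ} (hd : 0 < d) (hM : 0 < M) : 0 < tauUp d M := by
  have h1 : (1 : ℝ) ≤ d := by exact_mod_cast hd
  exact div_pos (rr_pos hd hM) (by linarith)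

theorem sphMax_upper {d : ℕ} (hd : 0 < d) (φ : E d → ℝ) (hφ0 : ∀ z, 0 ≤ φ z)
    (hφ1 : ∀ z, φ z ≤ 1) (hφ : ∀ z, 1 ≤ ‖z‖ → φ z = 0) {M : ℕ} (hM : 0 < M) (x : E d) (σ : ℝ)
    (hx : x ⟨0, hd⟩ = 1 + σ / (2 * (M : ℝ) ^ 2)) (hσ0 : 0 ≤ σ) (hσ1 : σ ≤ (M : ℝ) ^ 2)
    (hσ : ∀ q : ℕ, 1 / 4 ≤ |σ - q|) (h1 : 40 * d - 4 - 1 / 2 ≤ ‖proj hd x‖)
    (h2 : ‖proj hd x‖ ≤ 40 * d - 4 + 1 / 2) :
    sphMax (bumpSum hd φ (rr d M) (centers M)) x ≤ ENNReal.ofReal (kap d hd (tauUp d M)) := by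
  have hd1 : (1 : ℝ) ≤ d := by exact_mod_cast hd
  have hM1 : (1 : ℝ) ≤ M := by exact_mod_cast hM
  have hr := rr_pos hd hM
  have hr' := rr_le hd hM
  have hs0 : 0 ≤ σ / (2 * (M : ℝ) ^ 2) := by positivity
  have hs1 : σ / (2 * (M : ℝ) ^ 2) ≤ 1 := by
    rw [div_le_one (by positivity)]
    nlinarith
  have hx0 : 0 ≤ x ⟨0, hd⟩ := by rw [hx]; linarith
  have hx1 : x ⟨0, hd⟩ ≤ 2 := by rw [hx]; linarith
  apply sphMax_le hd φ hφ0 hφ1 hφ hr
  · intro c hc c' hc' hne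
    obtain ⟨hb1, hb2⟩ := dist_bounds hd x (centers_bounds hM hc) hx0 hx1 h1 h2
    obtain ⟨hb1', hb2'⟩ := dist_bounds hd x (centers_bounds hM hc') hx0 hx1 h1 h2
    have h3 := abs_sub_mul_add_axis hd x c c'
    have h4 := nonres hM hσ0 hσ1 hσ hc hc' hne
    rw [← hx, ← h3] at h4
    have h5 : |‖x - c • e0 hd‖ - ‖x - c' • e0 hd‖| * (‖x - c • e0 hd‖ + ‖x - c' • e0 hd‖)
        ≤ |‖x - c • e0 hd‖ - ‖x - c' • e0 hd‖| * (80 * d) := by
      gcongr
      linarith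
    have h6 : 1 / (4 * (M : ℝ) ^ 2) = 2 * rr d M * (80 * d) := by
      unfold rr
      field_simp
      norm_num
    have h7 := h4.trans h5
    rw [h6] at h7
    exact le_of_mul_le_mul_right h7 (by linarith)
  · intro c hc
    obtain ⟨hb1, hb2⟩ := dist_bounds hd x (centers_bounds hM hc) hx0 hx1 h1 h2
    refine ⟨by linarith, ?_⟩
    have h3 : 0 < 40 * (d : ℝ) - 5 := by linarith
    calc rr d M = tauUp d M * (40 * d - 5) := by
          rw [tauUp, div_mul_cancel₀ _ h3.ne']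
      _ ≤ tauUp d M * (‖x - c • e0 hd‖ - rr d M) :=
          mul_le_mul_of_nonneg_left (by linarith) (tauUp_pos hd hM).le

/-- The constant `(1 - 1/(8d))^2` raised to the power `d - 1` is at least `3/4`. -/
theorem bernoulli_const {d : ℕ} (hd : 0 < d) :
    3 / 4 ≤ ((1 - 1 / (8 * (d : ℝ))) ^ 2) ^ (d - 1) := by
  have hd1 : (1 : ℝ) ≤ d := by exact_mod_cast hd
  rw [← pow_mul]
  have h1 : (-2 : ℝ) ≤ -(1 / (8 * (d : ℝ))) := by
    have : 1 / (8 * (d : ℝ)) ≤ 1 := by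
      rw [div_le_one (by positivity)]
      linarith
    linarith
  have h2 := one_add_mul_le_pow h1 (2 * (d - 1))
  have h3 : (1 : ℝ) + -(1 / (8 * (d : ℝ))) = 1 - 1 / (8 * (d : ℝ)) := by ring
  rw [h3] at h2
  refine le_trans ?_ h2
  have h4 : ((2 * (d - 1) : ℕ) : ℝ) = 2 * ((d : ℝ) - 1) := by
    push_cast [Nat.cast_sub hd]
    ring
  rw [h4]
  have h5 : 2 * ((d : ℝ) - 1) * -(1 / (8 * (d : ℝ))) = -(1 / 4) + 1 / (4 * d) := by
    field_simp
    ring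
  rw [h5]
  have : 0 < 1 / (4 * (d : ℝ)) := by positivity
  linarith

theorem sphMax_lower {d : ℕ} (hd : 0 < d) (φ : E d → ℝ) (hφ0 : ∀ z, 0 ≤ φ z)
    (hφ : ∀ z, ‖z‖ ≤ 1 - 1 / (16 * (d : ℝ)) → φ z = 1) {M : ℕ} (hM : 0 < M) (x : E d) (σ : ℝ)
    (hx : x ⟨0, hd⟩ = 1 + σ / (2 * (M : ℝ) ^ 2)) {q : ℕ} (hq : q < M ^ 2)
    (hσ : |σ - q| ≤ 1 / (768 * d)) (h1 : 40 * d - 4 - 1 / 2 ≤ ‖proj hd x‖)
    (h2 : ‖proj hd x‖ ≤ 40 * d - 4 + 1 / 2) :
    ENNReal.ofReal (3 / 2 * kap d hd (tauUp d M)) ≤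
      sphMax (bumpSum hd φ (rr d M) (centers M)) x := by
  have hd1 : (1 : ℝ) ≤ d := by exact_mod_cast hd
  have hM1 : (1 : ℝ) ≤ M := by exact_mod_cast hM
  have hr := rr_pos hd hM
  have hr' := rr_le hd hM
  have heps : 1 / (768 * (d : ℝ)) ≤ 1 / 4 := by
    apply one_div_le_one_div_of_le (by norm_num)
    linarith
  have hq0 : (0 : ℝ) ≤ q := by positivity
  have hq1 : (q : ℝ) + 1 ≤ (M : ℝ) ^ 2 := by exact_mod_cast hq
  have hσ' := abs_le.mp hσ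
  have hx0 : 0 ≤ x ⟨0, hd⟩ := by
    rw [hx]
    have : -(1 : ℝ) ≤ σ / (2 * (M : ℝ) ^ 2) := by
      rw [le_div_iff₀ (by positivity)]
      nlinarith
    linarith
  have hx1 : x ⟨0, hd⟩ ≤ 2 := by
    rw [hx]
    have : σ / (2 * (M : ℝ) ^ 2) ≤ 1 := by
      rw [div_le_one (by positivity)]
      nlinarith
    linarith
  obtain ⟨c, hc, c', hc', hne, hcc⟩ := res hM hq hσ
  obtain ⟨hb1, hb2⟩ := dist_bounds hd x (centers_bounds hM hc) hx0 hx1 h1 h2
  obtain ⟨hb1', hb2'⟩ := dist_bounds hd x (centers_bounds hM hc') hx0 hx1 h1 h2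
  set η : ℝ := 1 / (16 * (d : ℝ)) with hη
  have hη0 : 0 < η := by positivity
  have hη2 : 2 * η = 1 / (8 * (d : ℝ)) := by
    rw [hη]
    field_simp
    norm_num
  have hη3 : 1 / (8 * (d : ℝ)) ≤ 1 / 8 := by
    apply one_div_le_one_div_of_le (by norm_num)
    linarith
  set τ : ℝ := (1 - 2 * η) * rr d M / (40 * d) with hτ
  have hτ0 : 0 < τ := by
    have : 0 < 1 - 2 * η := by rw [hη2]; linarith
    positivity
  have hclose : |‖x - c • e0 hd‖ - ‖x - c' • e0 hd‖| ≤ η * rr d M := by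
    have h3 := abs_sub_mul_add_axis hd x c c'
    rw [← hx, ← h3] at hcc
    have h5 : |‖x - c • e0 hd‖ - ‖x - c' • e0 hd‖| * (62 * d)
        ≤ |‖x - c • e0 hd‖ - ‖x - c' • e0 hd‖| * (‖x - c • e0 hd‖ + ‖x - c' • e0 hd‖) := by
      gcongr
      linarith
    have h6 : 3 * (1 / (768 * (d : ℝ)) / (M : ℝ) ^ 2) ≤ η * rr d M * (62 * d) := by
      rw [hη]
      unfold rr
      have e1 : 3 * (1 / (768 * (d : ℝ)) / (M : ℝ) ^ 2) = (1 / 256) * (1 / (d * (M : ℝ) ^ 2)) := by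
        field_simp
        norm_num
      have e2 : 1 / (16 * (d : ℝ)) * (1 / (640 * d * (M : ℝ) ^ 2)) * (62 * d)
          = (62 / 10240) * (1 / (d * (M : ℝ) ^ 2)) := by
        field_simp
        norm_num
      rw [e1, e2]
      exact mul_le_mul_of_nonneg_right (by norm_num) (by positivity)
    have h7 := (h5.trans hcc).trans h6
    exact le_of_mul_le_mul_right h7 (by linarith)
  have hv : x - c • e0 hd ≠ 0 := by
    rw [← norm_pos_iff]
    linarith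
  have hv' : x - c' • e0 hd ≠ 0 := by
    rw [← norm_pos_iff]
    linarith
  have hmain := le_sphMax hd φ hφ0 hφ hr (centers M) x c c' hc hc' hne hv hv' hclose hτ0.le
    hη0.le (by
      calc ‖x - c • e0 hd‖ * τ ≤ 40 * d * τ := by gcongr
        _ = (1 - 2 * η) * rr d M := by
          rw [hτ]
          field_simp)
  refine le_trans ?_ hmain
  have h40 : 0 < 40 * (d : ℝ) - 5 := by linarith
  have hle : τ ≤ tauUp d M := by
    rw [hτ, tauUp, div_le_div_iff₀ (by positivity) h40]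
    have e1 : (1 - 2 * η) * rr d M * (40 * d - 5) ≤ 1 * rr d M * (40 * d) := by
      gcongr
      · linarith
      · linarith
    linarith
  have hg := kap_growth hd hτ0 hle
  have hratio : tauUp d M / τ = ((1 - 1 / (8 * (d : ℝ))) ^ 2)⁻¹ := by
    have h8 : 0 < 8 * (d : ℝ) - 1 := by linarith
    rw [hτ, tauUp, hη2]
    have e1 : (40 : ℝ) * d - 5 = 5 * (8 * d - 1) := by ring
    rw [e1]
    have e2 : (1 - 1 / (8 * (d : ℝ))) = (8 * d - 1) / (8 * d) := by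
      field_simp
    rw [e2]
    field_simp
    norm_num
  have hB := bernoulli_const hd
  have hBpos : 0 < ((1 - 1 / (8 * (d : ℝ))) ^ 2) ^ (d - 1) := by linarith
  rw [hratio, inv_pow] at hg
  have h9 : 3 / 4 * kap d hd (tauUp d M) ≤ kap d hd τ := by
    calc 3 / 4 * kap d hd (tauUp d M)
        ≤ ((1 - 1 / (8 * (d : ℝ))) ^ 2) ^ (d - 1) * kap d hd (tauUp d M) := by
          have := kap_nonneg hd (tauUp d M)
          gcongr
      _ ≤ ((1 - 1 / (8 * (d : ℝ))) ^ 2) ^ (d - 1) *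
          ((((1 - 1 / (8 * (d : ℝ))) ^ 2) ^ (d - 1))⁻¹ * kap d hd τ) := by gcongr
      _ = kap d hd τ := by
          rw [← mul_assoc, mul_inv_cancel₀ hBpos.ne', one_mul]
  calc ENNReal.ofReal (3 / 2 * kap d hd (tauUp d M)) ≤ ENNReal.ofReal (2 * kap d hd τ) := by
        apply ENNReal.ofReal_le_ofReal
        linarith
    _ = 2 * ENNReal.ofReal (kap d hd τ) := by
        rw [ENNReal.ofReal_mul (by norm_num)]
        simp

end Pool.Agent.Lib.MP_ff3fe0_an
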