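import Pool.Agent.Lib.MP_ff3fe0_an.Region

/-!
# The test function
-/

namespace Pool.Agent.Lib.MP_ff3fe0_an

open MeasureTheory Metric Set
open scoped ENNReal NNReal ContDiff Pointwise

/-- One-dimensional bump: `1` on `[-ε/2, ε/2]`, supported in `[-ε, ε]`. -/
noncomputable def b1 {ε : ℝ} (hε : 0 < ε) : ContDiffBump (0 : ℝ) :=
  ⟨ε / 2, ε, by positivity, by linarith⟩

/-- Primitive of the bump. -/
noncomputable def F1 {ε : ℝ} (hε : 0 < ε) (s : ℝ) : ℝ := ∫ t in (0 : ℝ)..s, b1 hε t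

theorem b1_cont {ε : ℝ} (hε : 0 < ε) : Continuous (b1 hε) := (b1 hε).continuous

theorem b1_zero {ε : ℝ} (hε : 0 < ε) {s : ℝ} (h : ε ≤ |s|) : b1 hε s = 0 := by
  apply (b1 hε).zero_of_le_dist
  rw [dist_zero_right, Real.norm_eq_abs]
  exact h

theorem b1_one {ε : ℝ} (hε : 0 < ε) {s : ℝ} (h : |s| ≤ ε / 2) : b1 hε s = 1 := by
  apply (b1 hε).one_of_mem_closedBall
  rw [mem_closedBall, dist_zero_right, Real.norm_eq_abs]
  exact h

theorem F1_hasDerivAt {ε : ℝ} (hε : 0 < ε) (s : ℝ) : HasDerivAt (F1 hε) (b1 hε s) s :=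
  intervalIntegral.integral_hasDerivAt_right ((b1_cont hε).intervalIntegrable _ _)
    ((b1_cont hε).stronglyMeasurableAtFilter _ _) (b1_cont hε).continuousAt

theorem F1_contDiff {ε : ℝ} (hε : 0 < ε) : ContDiff ℝ ∞ (F1 hε) := by
  rw [contDiff_infty_iff_deriv]
  refine ⟨fun s => (F1_hasDerivAt hε s).differentiableAt, ?_⟩
  have : deriv (F1 hε) = b1 hε := funext fun s => (F1_hasDerivAt hε s).deriv
  rw [this]
  exact (b1 hε).contDiff

theorem F1_mono {ε : ℝ} (hε : 0 < ε) : Monotone (F1 hε) := by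
  apply monotone_of_deriv_nonneg
  · exact fun s => (F1_hasDerivAt hε s).differentiableAt
  · intro s
    rw [(F1_hasDerivAt hε s).deriv]
    exact (b1 hε).nonneg

theorem F1_sub {ε : ℝ} (hε : 0 < ε) (s t : ℝ) :
    F1 hε t - F1 hε s = ∫ x in s..t, b1 hε x := by
  rw [F1, F1]
  exact intervalIntegral.integral_interval_sub_left ((b1_cont hε).intervalIntegrable _ _)
    ((b1_cont hε).intervalIntegrable _ _)

theorem F1_const_right {ε : ℝ} (hε : 0 < ε) {s t : ℝ} (hs : ε ≤ s) (ht : ε ≤ t) :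
    F1 hε s = F1 hε t := by
  have h := F1_sub hε t s
  rw [intervalIntegral.integral_congr (g := fun _ => 0)] at h
  · simp at h
    linarith
  · intro x hx
    apply b1_zero
    have : ε ≤ x := by
      have := hx.1
      exact le_trans (le_min ht hs) this
    exact this.trans (le_abs_self x)

theorem F1_const_left {ε : ℝ} (hε : 0 < ε) {s t : ℝ} (hs : s ≤ -ε) (ht : t ≤ -ε) :
    F1 hε s = F1 hε t := by
  have h := F1_sub hε t s
  rw [intervalIntegral.integral_congr (g := fun _ => 0)] at h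
  · simp at h
    linarith
  · intro x hx
    apply b1_zero
    have : x ≤ -ε := by
      have := hx.2
      exact this.trans (max_le ht hs)
    rw [abs_of_nonpos (by linarith)]
    linarith

theorem F1_le {ε : ℝ} (hε : 0 < ε) (s : ℝ) : F1 hε s ≤ ε := by
  have h1 : F1 hε s ≤ F1 hε (max s ε) := F1_mono hε (le_max_left _ _)
  have h2 : F1 hε (max s ε) = F1 hε ε := F1_const_right hε (le_max_right _ _) le_rfl
  have h3 : F1 hε ε ≤ ∫ _ in (0 : ℝ)..ε, (1 : ℝ) := by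
    apply intervalIntegral.integral_mono_on hε.le ((b1_cont hε).intervalIntegrable _ _)
      (by simp)
    intro x _
    exact (b1 hε).le_one
  simp at h3
  linarith

theorem neg_le_F1 {ε : ℝ} (hε : 0 < ε) (s : ℝ) : -ε ≤ F1 hε s := by
  have h1 : F1 hε (min s (-ε)) ≤ F1 hε s := F1_mono hε (min_le_left _ _)
  have h2 : F1 hε (min s (-ε)) = F1 hε (-ε) := F1_const_left hε (min_le_right _ _) le_rfl
  have h3 : ∫ x in (-ε)..(0 : ℝ), b1 hε x ≤ ∫ _ in (-ε)..(0 : ℝ), (1 : ℝ) := by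
    apply intervalIntegral.integral_mono_on (by linarith) ((b1_cont hε).intervalIntegrable _ _)
      (by simp)
    intro x _
    exact (b1 hε).le_one
  have h4 : F1 hε (-ε) = - ∫ x in (-ε)..(0 : ℝ), b1 hε x := by
    rw [F1, intervalIntegral.integral_symm]
  simp at h3
  linarith

/-- `β` rises from `0` to its maximum near `0` and descends near `1/2`. -/
noncomputable def beta {ε : ℝ} (hε : 0 < ε) (s : ℝ) : ℝ := F1 hε s - F1 hε (s - 1 / 2)

theorem beta_nonneg {ε : ℝ} (hε : 0 < ε) (s : ℝ) : 0 ≤ beta hε s := by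
  have := F1_mono hε (show s - 1 / 2 ≤ s by linarith)
  rw [beta]
  linarith

theorem beta_zero {ε : ℝ} (hε : 0 < ε) {s : ℝ} (h : s ≤ -ε ∨ 1 / 2 + ε ≤ s) : beta hε s = 0 := by
  rw [beta]
  rcases h with h | h
  · rw [F1_const_left hε (s := s) (t := s - 1 / 2) h (by linarith), sub_self]
  · rw [F1_const_right hε (s := s) (t := s - 1 / 2) (by linarith) (by linarith), sub_self]

theorem beta_hasDerivAt {ε : ℝ} (hε : 0 < ε) (s : ℝ) :
    HasDerivAt (beta hε) (b1 hε s - b1 hε (s - 1 / 2)) s := by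
  apply (F1_hasDerivAt hε s).sub
  have h := (F1_hasDerivAt hε (s - 1 / 2)).comp_sub_const s (1 / 2)
  exact h

/-- The one-dimensional factor of the test function. -/
noncomputable def Sm {ε : ℝ} (hε : 0 < ε) (m : ℕ) (s : ℝ) : ℝ :=
  ∑ q ∈ Finset.range m, beta hε (2 * m * (s - 1) - q)

theorem Sm_nonneg {ε : ℝ} (hε : 0 < ε) (m : ℕ) (s : ℝ) : 0 ≤ Sm hε m s :=
  Finset.sum_nonneg fun _ _ => beta_nonneg hε _

theorem Sm_le {ε : ℝ} (hε : 0 < ε) (hε' : ε ≤ 1 / 2) (m : ℕ) (s : ℝ) : Sm hε m s ≤ 1 := by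
  have h1 : Sm hε m s ≤ ∑ q ∈ Finset.range m,
      (F1 hε (2 * m * (s - 1) - (q : ℕ)) - F1 hε (2 * m * (s - 1) - ((q + 1 : ℕ)))) := by
    apply Finset.sum_le_sum
    intro q _
    rw [beta]
    have := F1_mono hε (show 2 * m * (s - 1) - ((q + 1 : ℕ)) ≤ 2 * m * (s - 1) - q - 1 / 2 by
      push_cast
      linarith)
    linarith
  rw [Finset.sum_range_sub' (fun q : ℕ => F1 hε (2 * m * (s - 1) - (q : ℝ)))] at h1
  have h2 := F1_le hε (2 * m * (s - 1) - ((0 : ℕ) : ℝ))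
  have h3 := neg_le_F1 hε (2 * m * (s - 1) - (m : ℝ))
  linarith

theorem Sm_contDiff {ε : ℝ} (hε : 0 < ε) (m : ℕ) : ContDiff ℝ ∞ (Sm hε m) := by
  unfold Sm beta
  have hF := F1_contDiff hε
  apply ContDiff.sum
  intro q _
  apply ContDiff.sub
  · exact hF.comp (by fun_prop)
  · exact hF.comp (by fun_prop)

theorem Sm_hasDerivAt {ε : ℝ} (hε : 0 < ε) (m : ℕ) (s : ℝ) :
    HasDerivAt (Sm hε m) (2 * m * ∑ q ∈ Finset.range m, (b1 hε (2 * m * (s - 1) - q)
      - b1 hε (2 * m * (s - 1) - q - 1 / 2))) s := by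
  rw [Finset.mul_sum]
  have h : ∀ q ∈ Finset.range m, HasDerivAt (fun s : ℝ => beta hε (2 * m * (s - 1) - q))
      (2 * m * (b1 hε (2 * m * (s - 1) - q) - b1 hε (2 * m * (s - 1) - q - 1 / 2))) s := by
    intro q _
    have h1 := beta_hasDerivAt hε (2 * m * (s - 1) - q)
    have h2 : HasDerivAt (fun s : ℝ => 2 * m * (s - 1) - q) (2 * m) s := by
      have := (((hasDerivAt_id s).sub_const 1).const_mul (2 * (m : ℝ))).sub_const (q : ℝ)
      simpa using this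
    have h3 := h1.comp s h2
    rw [mul_comm (2 * (m : ℝ)) (b1 hε (2 * m * (s - 1) - q) - b1 hε (2 * m * (s - 1) - q - 1 / 2))]
    exact h3
  have := HasDerivAt.fun_sum h
  exact this

theorem Sm_zero {ε : ℝ} (hε : 0 < ε) (hε' : ε ≤ 1 / 2) {m : ℕ} (hm : 0 < m) {s : ℝ}
    (h : s < 0 ∨ 2 < s) : Sm hε m s = 0 := by
  have hm' : (1 : ℝ) ≤ m := by exact_mod_cast hm
  apply Finset.sum_eq_zero
  intro q hq
  have hq0 : (0 : ℝ) ≤ q := by positivity
  have hq1 : (q : ℝ) + 1 ≤ m := by exact_mod_cast Finset.mem_range.mp hq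
  apply beta_zero
  rcases h with h | h
  · left
    nlinarith
  · right
    nlinarith

/-- The projection as a continuous linear map. -/
noncomputable def projL {d : ℕ} (hd : 0 < d) : E d →L[ℝ] E d :=
  ContinuousLinearMap.id ℝ (E d) -
    (EuclideanSpace.proj (⟨0, hd⟩ : Fin d) : E d →L[ℝ] ℝ).smulRight (e0 hd)

theorem projL_apply {d : ℕ} (hd : 0 < d) (x : E d) : projL hd x = proj hd x := by
  simp [projL, proj]

theorem proj_add_smul {d : ℕ} (hd : 0 < d) (x : E d) (t : ℝ) :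
    proj hd (x + t • e0 hd) = proj hd x := by
  simp [proj, e0, add_smul]

/-- The test function `Φ(x) = S(x₀) B(proj x)`. -/
noncomputable def tst {d : ℕ} (hd : 0 < d) {ε : ℝ} (hε : 0 < ε) (m : ℕ) (B : E d → ℝ) (x : E d) :
    ℝ := Sm hε m (x ⟨0, hd⟩) * B (proj hd x)

theorem tst_contDiff {d : ℕ} (hd : 0 < d) {ε : ℝ} (hε : 0 < ε) (m : ℕ) {B : E d → ℝ}
    (hB : ContDiff ℝ ∞ B) : ContDiff ℝ ∞ (tst hd hε m B) := by
  unfold tst
  apply ContDiff.mul
  · exact (Sm_contDiff hε m).comp (by fun_prop)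
  · have : (fun x : E d => B (proj hd x)) = B ∘ (projL hd) := by
      funext x
      simp [projL_apply]
    rw [this]
    exact hB.comp (projL hd).contDiff

theorem fderiv_tst {d : ℕ} (hd : 0 < d) {ε : ℝ} (hε : 0 < ε) (m : ℕ) {B : E d → ℝ}
    (hB : ContDiff ℝ ∞ B) (x : E d) :
    fderiv ℝ (tst hd hε m B) x (e0 hd) =
      (2 * m * ∑ q ∈ Finset.range m, (b1 hε (2 * m * (x ⟨0, hd⟩ - 1) - q)
      - b1 hε (2 * m * (x ⟨0, hd⟩ - 1) - q - 1 / 2))) * B (proj hd x) := by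
  have hdiff : DifferentiableAt ℝ (tst hd hε m B) x :=
    ((tst_contDiff hd hε m hB).differentiable (by simp)).differentiableAt
  rw [← hdiff.lineDeriv_eq_fderiv]
  apply HasLineDerivAt.lineDeriv
  show HasDerivAt (fun t : ℝ => tst hd hε m B (x + t • e0 hd)) _ 0
  have h1 : (fun t : ℝ => tst hd hε m B (x + t • e0 hd))
      = fun t : ℝ => Sm hε m (x ⟨0, hd⟩ + t) * B (proj hd x) := by
    funext t
    rw [tst, proj_add_smul]
    congr 2
    simp [e0]
  rw [h1]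
  apply HasDerivAt.mul_const
  have h2 := (Sm_hasDerivAt hε m (x ⟨0, hd⟩ + 0)).comp_const_add (x ⟨0, hd⟩) 0
  simpa using h2

theorem norm_le_axis {d : ℕ} (hd : 0 < d) (x : E d) : ‖x‖ ≤ |x ⟨0, hd⟩| + ‖proj hd x‖ := by
  have h : x = (x ⟨0, hd⟩) • e0 hd + proj hd x := by
    rw [proj]
    abel
  calc ‖x‖ = ‖(x ⟨0, hd⟩) • e0 hd + proj hd x‖ := by rw [← h]
    _ ≤ ‖(x ⟨0, hd⟩) • e0 hd‖ + ‖proj hd x‖ := norm_add_le _ _
    _ = |x ⟨0, hd⟩| + ‖proj hd x‖ := by rw [norm_smul, norm_e0, mul_one, Real.norm_eq_abs]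

theorem tst_zero {d : ℕ} (hd : 0 < d) {ε : ℝ} (hε : 0 < ε) (hε' : ε ≤ 1 / 2) {m : ℕ} (hm : 0 < m)
    {B : E d → ℝ} {R : ℝ} (hB : ∀ z, R + 1 / 2 ≤ ‖z‖ → B z = 0) {x : E d} (hx : R + 3 ≤ ‖x‖) :
    tst hd hε m B x = 0 := by
  rw [tst]
  by_cases h : x ⟨0, hd⟩ < 0 ∨ 2 < x ⟨0, hd⟩
  · rw [Sm_zero hε hε' hm h, zero_mul]
  · push Not at h
    rw [hB, mul_zero]
    have h1 := norm_le_axis hd x
    rw [abs_of_nonneg h.1] at h1
    linarith [h.2]

end Pool.Agent.Lib.MP_ff3fe0_an
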